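import Pool.Agent.H91.V0F.Fup

/-!
# Heights over a closed label and digits of the position

`AttE`: labels with a gradient exponent `E`. `few_xj`, `few_jx`: given the exact positions of the
places of the label, the height over a label of the window `w` to `N` digits and `N` digits of the
position are few bits of each other. `exj`, `exj_base`: the form with the record at `w`.
-/

set_option autoImplicit false

namespace Pool.LA91

open Finset Real MvPolynomial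
open Pool.Agent.H49.Ent Pool.Agent.H32.Dense Pool.STK Pool.KA Pool.KSAT Pool.K2S Pool.PB Pool.GEN
open Pool.S6C Pool.RCD
open Pool.GRD (LbP)
open Pool.UNJ (ceI)
open Pool.EXW (abs_floor_sub)

variable {m : ℕ} {U : Type} {α γ : ∀ J : ℕ, Fam m J → Type}
  {f : ∀ (J : ℕ) (F : Fam m J), F.Ω → α J F} {y : ∀ (J : ℕ) (F : Fam m J), F.Ω → γ J F}
  {S : PCl m}

/-- **Labels with a gradient exponent** `E`. -/
def AttG (S : PCl m) (I : Finset (Fin m)) (k : Fin m) (w p r E : ℝ) : Prop :=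
  ∀ e : ℝ, 0 < e → ∃ K : ℕ, Bas S (fun J F A =>
    Lb F I k K ⌊(E + e) * J⌋₊ J ⌊w * J⌋₊ ⌊(r + e) * J⌋₊ ⌊(p - e) * J⌋₊ A)

theorem Att.attG {I : Finset (Fin m)} {k : Fin m} {w p r E : ℝ} (hw : w ≤ 1) (hE : 0 ≤ E)
    (h : Att S I k w p r) : AttG S I k w p r E := by
  intro e he
  obtain ⟨K, hK⟩ := h e he
  refine ⟨K, Bas.mono 0 hK ?_⟩
  intro J _ F A hG
  have hJ : (0 : ℝ) ≤ J := Nat.cast_nonneg J
  exact hG.mono (Finset.Subset.refl _) le_rfl
    (Nat.floor_le_floor (mul_le_mul_of_nonneg_right (by linarith) hJ)) le_rfl le_rfl (fl_le hw J)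
    le_rfl le_rfl

/-- **The height over a label with the gradient exponent** `E`. -/
noncomputable def qLg (m : ℕ) (I : Finset (Fin m)) (k : Fin m) (w p rd E N : ℝ) : Qt m ℤ where
  P K e J F A u := (cnt F.p u A : ℝ) ≤ Real.exp (K * J) ∧
    ∃ (V : Type) (z : PtT F → V) (z' : LnT F → V) (G : V → MvPolynomial (Option (Fin m)) ℝ),
      LbOK F I k K ⌊(E + e) * J⌋₊ J ⌊w * J⌋₊ ⌊(rd + e) * J⌋₊ ⌊(p - e) * J⌋₊ A z z' G ∧
      ∀ ω, A ω → u ω = ⌊(2 : ℝ) ^ (N * J) * ojet F k 0 (G (z' (slam F ⌊w * J⌋₊ ω))) ω⌋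
  sub := by
    rintro K e J F A B u hB ⟨hc, V, z, z', G, hl, hu⟩
    refine ⟨le_trans ?_ hc, V, z, z', G, hl.sub hB, fun ω hω => hu ω (hB ω hω)⟩
    exact_mod_cast cnt_mono F.p u hB
  mono := by
    rintro K K' e e' J F A u hK he ⟨hc, V, z, z', G, hl, hu⟩
    have hJ : (0 : ℝ) ≤ J := Nat.cast_nonneg J
    refine ⟨hc.trans (Real.exp_le_exp.2 ?_), V, z, z', G, hl.mono (Finset.Subset.refl _) hK
      (Nat.floor_le_floor (mul_le_mul_of_nonneg_right (by linarith) hJ))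
      (Nat.floor_le_floor (mul_le_mul_of_nonneg_right (by linarith) hJ))
      (Nat.floor_le_floor (mul_le_mul_of_nonneg_right (by linarith) hJ)), hu⟩
    exact mul_le_mul_of_nonneg_right (by exact_mod_cast hK) hJ

theorem qLg_jet {I : Finset (Fin m)} {k : Fin m} {w p rd E N : ℝ} {K : ℕ} {e : ℝ} {J : ℕ}
    {F : Fam m J} {A : F.Ω → Prop} {u : F.Ω → ℤ} (h : (qLg m I k w p rd E N).P K e J F A u) :
    (qJet m I k 0 w p N).P K e J F A u := by
  obtain ⟨hc, V, z, z', G, hl, hu⟩ := h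
  exact ⟨hc, V, z, z', G, LbP.of hl, hu⟩

/-- **The height over a label with a gradient exponent exists.** -/
theorem exs_lg {I : Finset (Fin m)} {k : Fin m} {w p r E N : ℝ} (hE : 0 ≤ E)
    (h : AttG S I k w p r E) : Exs S (qLg m I k w p r E N) := by
  intro e he
  obtain ⟨K, hK⟩ := h e he
  obtain ⟨C, hC, hbig⟩ := ojet_big m K 0
  have hC0 : 0 < C := by linarith
  have hl2 : 0 < Real.log 2 := Real.log_pos one_lt_two
  obtain ⟨B, hB⟩ : ∃ B : ℝ, B = |N| + (E + e) := ⟨_, rfl⟩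
  have hEe : 0 ≤ E + e := by linarith
  have hB0 : 0 ≤ B := by
    rw [hB]
    positivity
  obtain ⟨M, hM⟩ : ∃ M : ℕ, M = max K ⌈B * Real.log 2 + 1⌉₊ := ⟨_, rfl⟩
  have hM1 : B * Real.log 2 + 1 ≤ M := by
    refine (Nat.le_ceil _).trans ?_
    rw [hM]
    exact_mod_cast le_max_right _ _
  have hKM : K ≤ M := by
    rw [hM]
    exact le_max_left _ _
  obtain ⟨J₁, hJ₁⟩ := exists_nat_ge (Real.log (2 * (C + 1) + 1))
  refine ⟨M, M, Bas.mono J₁ hK ?_⟩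
  rintro J hJ F A ⟨V, z, z', G, hlb⟩
  have hJ0 : (0 : ℝ) ≤ J := Nat.cast_nonneg J
  have hJ1 : (J₁ : ℝ) ≤ J := by exact_mod_cast hJ
  have hcnt : (cnt F.p (fun ω => ⌊(2 : ℝ) ^ (N * J) *
      ojet F k 0 (G (z' (slam F ⌊w * J⌋₊ ω))) ω⌋) A : ℝ) ≤ Real.exp (M * J) := by
    have b1 : (1 : ℝ) ≤ 2 ^ (B * J) := by
      rw [← exp_p2]
      exact Real.one_le_exp (by positivity)
    have h1 := cnt_le_of_abs (p := F.p) (u := fun ω => ⌊(2 : ℝ) ^ (N * J) *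
      ojet F k 0 (G (z' (slam F ⌊w * J⌋₊ ω))) ω⌋) (A := A) (B := (C + 1) * 2 ^ (B * J))
      (by positivity) (by
        intro ω hω
        have h2 := hbig J F I k _ _ _ _ A V z z' G hlb ω hω
        obtain ⟨o, ho⟩ : ∃ o, o = ojet F k 0 (G (z' (slam F ⌊w * J⌋₊ ω))) ω := ⟨_, rfl⟩
        rw [← ho, pow_zero, mul_one] at h2
        rw [← ho]
        have h3 : |(2 : ℝ) ^ (N * J) * o| ≤ C * 2 ^ (B * J) := by
          rw [abs_mul, abs_of_pos (by positivity)]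
          have a2 : (2 : ℝ) ^ ⌊(E + e) * J⌋₊ ≤ 2 ^ ((E + e) * J) := p2_le (by positivity)
          have b3 : (0 : ℝ) < 2 ^ (N * J) := Real.rpow_pos_of_pos (by norm_num) _
          have b4 : (0 : ℝ) < 2 ^ ((E + e) * J) := Real.rpow_pos_of_pos (by norm_num) _
          calc (2 : ℝ) ^ (N * J) * |o| ≤ 2 ^ (N * J) * (C * 2 ^ ((E + e) * J)) := by
                refine mul_le_mul_of_nonneg_left (h2.trans ?_) b3.le
                exact mul_le_mul_of_nonneg_left a2 hC0.le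
            _ = C * (2 ^ (N * J) * 2 ^ ((E + e) * J)) := by ring
            _ ≤ C * 2 ^ (B * J) := by
                rw [← Real.rpow_add (by norm_num)]
                refine mul_le_mul_of_nonneg_left ?_ hC0.le
                refine Real.rpow_le_rpow_of_exponent_le (by norm_num) ?_
                have := mul_le_mul_of_nonneg_right (le_abs_self N) hJ0
                rw [hB]
                linarith
        have h4 := Int.floor_le ((2 : ℝ) ^ (N * J) * o)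
        have h5 := Int.lt_floor_add_one ((2 : ℝ) ^ (N * J) * o)
        have h6 := abs_le.1 h3
        rw [abs_le]
        constructor <;> nlinarith [h6.1, h6.2])
    refine h1.trans ?_
    have h2 : 2 * ((C + 1) * 2 ^ (B * J)) + 1 ≤ (2 * (C + 1) + 1) * 2 ^ (B * J) := by linarith
    refine h2.trans ?_
    rw [← exp_p2]
    calc (2 * (C + 1) + 1) * Real.exp (B * J * Real.log 2)
        = Real.exp (Real.log (2 * (C + 1) + 1)) * Real.exp (B * J * Real.log 2) := by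
          rw [Real.exp_log (by positivity)]
      _ = Real.exp (Real.log (2 * (C + 1) + 1) + B * J * Real.log 2) := (Real.exp_add _ _).symm
      _ ≤ Real.exp (M * J) := by
          refine Real.exp_le_exp.2 ?_
          have := mul_le_mul_of_nonneg_right hM1 hJ0
          nlinarith [hJ₁.trans hJ1]
  exact ⟨_, ⟨hcnt, V, z, z', G, hlb.mono (Finset.Subset.refl _) hKM le_rfl le_rfl le_rfl,
    fun ω _ => rfl⟩, hcnt⟩

/-- `N` digits of the position. -/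
noncomputable def qXd (m : ℕ) (k : Fin m) (N : ℝ) : Qt m ℤ :=
  Qt.fn (fun J F ω => F.X ⌊N * J⌋₊ ω k)

theorem X_near' {J n : ℕ} {F : Fam m J} {ω ω' : F.Ω} {i : Fin m} (h : F.X n ω i = F.X n ω' i) :
    |F.x ω' i - F.x ω i| ≤ 1 / 2 ^ n := by
  have hu0 : (0 : ℝ) < 2 ^ n := by positivity
  have h4 := Int.abs_sub_lt_one_of_floor_eq_floor
    (show ⌊(2 : ℝ) ^ n * F.x ω i⌋ = ⌊(2 : ℝ) ^ n * F.x ω' i⌋ from h)
  rw [← mul_sub, abs_mul, abs_of_pos hu0] at h4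
  rw [abs_sub_comm, le_div_iff₀ hu0]
  linarith

/-- The time and the exact positions of the places `< i` are visible. -/
def KnX (c : ℕ → Fin m) (i : ℕ) (y : ∀ (J : ℕ) (F : Fam m J), F.Ω → γ J F) : Prop :=
  (∀ (J : ℕ) (F : Fam m J), ∃ φ : γ J F → ℕ, ∀ ω, F.T ω = φ (y J F ω)) ∧
  ∀ (J : ℕ) (F : Fam m J), ∃ φ : γ J F → (ℕ → ℤ), ∀ ω, ∀ l < i, F.X J ω (c l) = φ (y J F ω) l

/-- Two points of one cell: the two heights. -/
theorem lg_near {J : ℕ} {F : Fam m J} {A : F.Ω → Prop} {c : ℕ → Fin m} {i K : ℕ}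
    {w p rd E e N : ℝ} {V : Type} {z : PtT F → V} {z' : LnT F → V}
    {G : V → MvPolynomial (Option (Fin m)) ℝ}
    (hlb : LbOK F ((range i).image c) (c i) K ⌊(E + e) * J⌋₊ J ⌊w * J⌋₊ ⌊(rd + e) * J⌋₊
      ⌊(p - e) * J⌋₊ A z z' G) (hfl : ⌊(rd + e) * J⌋₊ ≤ J) (hE : 0 ≤ E) (he : 0 < e)
    (hNE : N + E ≤ 1) {ω ω' : F.Ω} (hω : A ω) (hx : ∀ l < i, F.X J ω (c l) = F.X J ω' (c l))
    (hz : z' (slam F ⌊w * J⌋₊ ω) = z' (slam F ⌊w * J⌋₊ ω')) (hT : F.T ω = F.T ω') :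
    (2 : ℝ) ^ (N * J) * |eval (bt F ω') (G (z' (slam F ⌊w * J⌋₊ ω'))) -
      eval (bt F ω) (G (z' (slam F ⌊w * J⌋₊ ω)))| ≤ 2 ^ (e * J) * (m + 1) := by
  have hJ0 : (0 : ℝ) ≤ J := Nat.cast_nonneg J
  have hNp : (0 : ℝ) < 2 ^ (N * J) := Real.rpow_pos_of_pos (by norm_num) _
  have h1 := lb_near hlb hfl hω (ω' := ω') (by
    intro k hk
    obtain ⟨l, hl, rfl⟩ := Finset.mem_image.1 hk
    exact X_near (hx l (Finset.mem_range.1 hl))) hz hT
  refine (mul_le_mul_of_nonneg_left h1 hNp.le).trans ?_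
  have a2 : (2 : ℝ) ^ ⌊(E + e) * J⌋₊ ≤ 2 ^ ((E + e) * J) :=
    p2_le (mul_nonneg (by linarith) hJ0)
  have h2 : (2 : ℝ) ^ (N * J) * (2 ^ ⌊(E + e) * J⌋₊ * ((m + 1) * (1 / 2 ^ J))) ≤
      2 ^ (N * J) * (2 ^ ((E + e) * J) * ((m + 1) * (1 / 2 ^ J))) :=
    mul_le_mul_of_nonneg_left (mul_le_mul_of_nonneg_right a2 (by positivity)) hNp.le
  refine h2.trans ?_
  have h3 : (1 : ℝ) / 2 ^ J = 2 ^ (-(J : ℝ)) := by
    rw [Real.rpow_neg (by norm_num), Real.rpow_natCast, one_div]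
  have h4 : (2 : ℝ) ^ (N * J) * (2 ^ ((E + e) * J) * ((m + 1) * (1 / 2 ^ J))) =
      2 ^ ((N + E - 1 + e) * J) * (m + 1) := by
    rw [h3]
    have e1 : (2 : ℝ) ^ ((N + E - 1 + e) * J) = 2 ^ (N * J) * 2 ^ ((E + e) * J) *
        2 ^ (-(J : ℝ)) := by
      rw [← Real.rpow_add (by norm_num), ← Real.rpow_add (by norm_num)]
      congr 1
      ring
    rw [e1]
    ring
  rw [h4]
  refine mul_le_mul_of_nonneg_right ?_ (by positivity)
  exact Real.rpow_le_rpow_of_exponent_le (by norm_num)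
    (mul_le_mul_of_nonneg_right (by linarith) hJ0)

theorem nd_floor {N : ℝ} (hN : 0 ≤ N) (J : ℕ) :
    (2 : ℝ) ^ ⌊N * J⌋₊ ≤ 2 ^ (N * J) ∧ (2 : ℝ) ^ (N * J) ≤ 2 * 2 ^ ⌊N * J⌋₊ := by
  have hJ0 : (0 : ℝ) ≤ J := Nat.cast_nonneg J
  refine ⟨p2_le (by positivity), ?_⟩
  have h1 := (Nat.lt_floor_add_one (N * J)).le
  have h2 : (2 : ℝ) ^ (N * J) ≤ 2 ^ (((⌊N * J⌋₊ : ℕ) : ℝ) + 1) :=
    Real.rpow_le_rpow_of_exponent_le (by norm_num) h1
  refine h2.trans (le_of_eq ?_)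
  rw [Real.rpow_add (by norm_num), Real.rpow_natCast, Real.rpow_one]
  ring

/-- **The height given the digits of the position.** -/
theorem few_xd_lg
    (hpos : ∀ (τ : ℝ) (J : ℕ) (F : Fam m J) (A : F.Ω → Prop), S.St τ J F A → 0 < Pe F.p A)
    (hf : ∀ (J : ℕ) (F : Fam m J), ∃ φ : α J F → PtT F, ∀ ω, ptr F J ω = φ (f J F ω))
    {c : ℕ → Fin m} {i : ℕ} (hy : KnX c i y) {w p rd E N : ℝ} (hw : w ≤ 1) (hrd : rd < 1)
    (hE : 0 ≤ E) (hN0 : 0 ≤ N) (hN : N + E ≤ 1) :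
    Few S f (vg w) y (qXd m (c i) N) (qLg m ((range i).image c) (c i) w p rd E N) := by
  intro h hh
  obtain ⟨J₀, hJ₀⟩ := log_room (m := m) (half_pos hh)
  obtain ⟨e, hee⟩ : ∃ e : ℝ, e = min (h / 2) (1 - rd) := ⟨_, rfl⟩
  have he : 0 < e := by rw [hee]; exact lt_min (half_pos hh) (by linarith)
  have he1 : e ≤ h / 2 := by rw [hee]; exact min_le_left _ _
  have he2 : rd + e ≤ 1 := by
    have : e ≤ 1 - rd := by rw [hee]; exact min_le_right _ _
    linarith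
  have hl2 : 0 < Real.log 2 := Real.log_pos one_lt_two
  have hl21 : Real.log 2 ≤ 1 := by
    have := Real.log_two_lt_d9
    linarith
  refine ⟨e, he, fun K => Bas.mono J₀ (pos_bas hpos) ?_⟩
  rintro J hJ F A hA u u' hu ⟨hc, V, z, z', G, hlb, hu'⟩
  have hcl := isLaw_cond F.isLaw hA
  have hJ0 : (0 : ℝ) ≤ J := Nat.cast_nonneg J
  refine ⟨V, fun ω => z' (slam F ⌊w * J⌋₊ ω), lb_cl2 le_rfl hw (LbP.of hlb) (hf J F), ?_⟩
  obtain ⟨φ, hφ⟩ := hy.1 J F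
  obtain ⟨φ', hφ'⟩ := hy.2 J F
  have hfl : ⌊(rd + e) * J⌋₊ ≤ J := floor_le he2 J
  have hm0 : (0 : ℝ) ≤ m := Nat.cast_nonneg m
  have hNp : (0 : ℝ) < 2 ^ (N * J) := Real.rpow_pos_of_pos (by norm_num) _
  have b1 : (1 : ℝ) ≤ 2 ^ (e * J) := by
    rw [← exp_p2]
    exact Real.one_le_exp (by positivity)
  have key := CH_le_int hcl.nonneg hcl.sum_one u'
    (fun ω => (u ω, (z' (slam F ⌊w * J⌋₊ ω), y J F ω))) (fun _ => 2 ^ (e * J) * (m + 4)) (by
    intro ω ω' hω hω' hh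
    simp only [Prod.mk.injEq] at hh
    have hωA := of_cond_pos hω
    have hωA' := of_cond_pos hω'
    have hx : ∀ l < i, F.X J ω (c l) = F.X J ω' (c l) := fun l hl => by
      rw [hφ' ω l hl, hφ' ω' l hl, hh.2.2]
    have hTT : F.T ω = F.T ω' := by rw [hφ ω, hφ ω', hh.2.2]
    have h1 := lg_near (N := N) hlb hfl hE he hN hωA hx hh.2.1 hTT
    have h2 : |F.x ω' (c i) - F.x ω (c i)| ≤ 1 / 2 ^ ⌊N * J⌋₊ := by
      refine X_near' ?_
      have h3 := hu ω hωA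
      have h4 := hu ω' hωA'
      exact h3.symm.trans (hh.1.trans h4)
    rw [hu' ω hωA, hu' ω' hωA']
    refine (abs_floor_sub _ _).trans ?_
    rw [ojet_zero, ojet_zero, ← mul_sub, abs_mul, abs_of_pos hNp]
    obtain ⟨b, hb⟩ : ∃ b : ℝ, b = eval (bt F ω') (G (z' (slam F ⌊w * J⌋₊ ω'))) -
        eval (bt F ω) (G (z' (slam F ⌊w * J⌋₊ ω))) := ⟨_, rfl⟩
    have e1 : F.x ω (c i) - eval (bt F ω) (G (z' (slam F ⌊w * J⌋₊ ω))) -
        (F.x ω' (c i) - eval (bt F ω') (G (z' (slam F ⌊w * J⌋₊ ω')))) =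
        b - (F.x ω' (c i) - F.x ω (c i)) := by
      rw [hb]
      ring
    rw [← hb] at h1
    rw [e1]
    have h5 : (2 : ℝ) ^ (N * J) * |F.x ω' (c i) - F.x ω (c i)| ≤ 2 := by
      refine (mul_le_mul_of_nonneg_left h2 hNp.le).trans ?_
      rw [mul_one_div, div_le_iff₀ (by positivity)]
      exact (nd_floor hN0 J).2
    have h6 : (2 : ℝ) ^ (N * J) * |b - (F.x ω' (c i) - F.x ω (c i))| ≤
        2 ^ (N * J) * |b| + 2 ^ (N * J) * |F.x ω' (c i) - F.x ω (c i)| := by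
      rw [← mul_add]
      exact mul_le_mul_of_nonneg_left (abs_sub _ _) hNp.le
    linarith)
  rw [Ex_const hcl.sum_one] at key
  refine key.trans ((hJ₀ J hJ _ e he.le (by positivity) le_rfl).trans ?_)
  refine mul_le_mul_of_nonneg_right ?_ hJ0
  nlinarith

/-- **The digits of the position given the height.** -/
theorem few_lg_xd
    (hpos : ∀ (τ : ℝ) (J : ℕ) (F : Fam m J) (A : F.Ω → Prop), S.St τ J F A → 0 < Pe F.p A)
    (hf : ∀ (J : ℕ) (F : Fam m J), ∃ φ : α J F → PtT F, ∀ ω, ptr F J ω = φ (f J F ω))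
    {c : ℕ → Fin m} {i : ℕ} (hy : KnX c i y) {w p rd E N : ℝ} (hw : w ≤ 1) (hrd : rd < 1)
    (hE : 0 ≤ E) (hN0 : 0 ≤ N) (hN : N + E ≤ 1) :
    Few S f (vg w) y (qLg m ((range i).image c) (c i) w p rd E N) (qXd m (c i) N) := by
  intro h hh
  obtain ⟨J₀, hJ₀⟩ := log_room (m := m) (half_pos hh)
  obtain ⟨e, hee⟩ : ∃ e : ℝ, e = min (h / 2) (1 - rd) := ⟨_, rfl⟩
  have he : 0 < e := by rw [hee]; exact lt_min (half_pos hh) (by linarith)
  have he1 : e ≤ h / 2 := by rw [hee]; exact min_le_left _ _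
  have he2 : rd + e ≤ 1 := by
    have : e ≤ 1 - rd := by rw [hee]; exact min_le_right _ _
    linarith
  have hl2 : 0 < Real.log 2 := Real.log_pos one_lt_two
  have hl21 : Real.log 2 ≤ 1 := by
    have := Real.log_two_lt_d9
    linarith
  refine ⟨e, he, fun K => Bas.mono J₀ (pos_bas hpos) ?_⟩
  rintro J hJ F A hA u' u ⟨hc, V, z, z', G, hlb, hu'⟩ hu
  have hcl := isLaw_cond F.isLaw hA
  have hJ0 : (0 : ℝ) ≤ J := Nat.cast_nonneg J
  refine ⟨V, fun ω => z' (slam F ⌊w * J⌋₊ ω), lb_cl2 le_rfl hw (LbP.of hlb) (hf J F), ?_⟩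
  obtain ⟨φ, hφ⟩ := hy.1 J F
  obtain ⟨φ', hφ'⟩ := hy.2 J F
  have hfl : ⌊(rd + e) * J⌋₊ ≤ J := floor_le he2 J
  have hm0 : (0 : ℝ) ≤ m := Nat.cast_nonneg m
  have hNp : (0 : ℝ) < 2 ^ (N * J) := Real.rpow_pos_of_pos (by norm_num) _
  have b1 : (1 : ℝ) ≤ 2 ^ (e * J) := by
    rw [← exp_p2]
    exact Real.one_le_exp (by positivity)
  have key := CH_le_int hcl.nonneg hcl.sum_one u
    (fun ω => (u' ω, (z' (slam F ⌊w * J⌋₊ ω), y J F ω))) (fun _ => 2 ^ (e * J) * (m + 4)) (by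
    intro ω ω' hω hω' hh
    simp only [Prod.mk.injEq] at hh
    have hωA := of_cond_pos hω
    have hωA' := of_cond_pos hω'
    have hx : ∀ l < i, F.X J ω (c l) = F.X J ω' (c l) := fun l hl => by
      rw [hφ' ω l hl, hφ' ω' l hl, hh.2.2]
    have hTT : F.T ω = F.T ω' := by rw [hφ ω, hφ ω', hh.2.2]
    have h1 := lg_near (N := N) hlb hfl hE he hN hωA hx hh.2.1 hTT
    have h2 : ⌊(2 : ℝ) ^ (N * J) * ojet F (c i) 0 (G (z' (slam F ⌊w * J⌋₊ ω))) ω⌋ =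
        ⌊(2 : ℝ) ^ (N * J) * ojet F (c i) 0 (G (z' (slam F ⌊w * J⌋₊ ω'))) ω'⌋ := by
      rw [← hu' ω hωA, ← hu' ω' hωA']
      exact hh.1
    have h3 := Int.abs_sub_lt_one_of_floor_eq_floor h2
    rw [ojet_zero, ojet_zero, ← mul_sub, abs_mul, abs_of_pos hNp] at h3
    rw [hu ω hωA, hu ω' hωA']
    change |((⌊(2 : ℝ) ^ ⌊N * J⌋₊ * F.x ω (c i)⌋ - ⌊(2 : ℝ) ^ ⌊N * J⌋₊ * F.x ω' (c i)⌋ : ℤ) :
      ℝ)| ≤ _
    refine (abs_floor_sub _ _).trans ?_
    rw [← mul_sub, abs_mul, abs_of_pos (by positivity)]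
    obtain ⟨a, ha⟩ : ∃ a : ℝ, a = F.x ω (c i) - eval (bt F ω) (G (z' (slam F ⌊w * J⌋₊ ω))) -
        (F.x ω' (c i) - eval (bt F ω') (G (z' (slam F ⌊w * J⌋₊ ω')))) := ⟨_, rfl⟩
    obtain ⟨b, hb⟩ : ∃ b : ℝ, b = eval (bt F ω') (G (z' (slam F ⌊w * J⌋₊ ω'))) -
        eval (bt F ω) (G (z' (slam F ⌊w * J⌋₊ ω))) := ⟨_, rfl⟩
    rw [← ha] at h3
    rw [← hb] at h1
    have h4 : F.x ω (c i) - F.x ω' (c i) = a - b := by
      rw [ha, hb]
      ring
    rw [h4]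
    have h5 : (2 : ℝ) ^ ⌊N * J⌋₊ * |a - b| ≤ 2 ^ (N * J) * |a| + 2 ^ (N * J) * |b| := by
      rw [← mul_add]
      exact mul_le_mul (nd_floor hN0 J).1 (abs_sub _ _) (abs_nonneg _) hNp.le
    linarith)
  rw [Ex_const hcl.sum_one] at key
  refine key.trans ((hJ₀ J hJ _ e he.le (by positivity) le_rfl).trans ?_)
  refine mul_le_mul_of_nonneg_right ?_ hJ0
  nlinarith

section chain

variable {c : ℕ → Fin m} {r i : ℕ} {s rd : ℕ → ℝ} {w u₁ φ sl p N rk E : ℝ}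

/-- The lower heights are few bits given the visible positions. -/
theorem few_pi_lpX
    (hpos : ∀ (τ : ℝ) (J : ℕ) (F : Fam m J) (A : F.Ω → Prop), S.St τ J F A → 0 < Pe F.p A)
    (hf : ∀ (J : ℕ) (F : Fam m J), ∃ φ : α J F → PtT F, ∀ ω, ptr F J ω = φ (f J F ω))
    (hy : KnX c i y) (hch : Chn S c 0 r w w u₁ s rd) (hi : i ≤ r) {M : ℕ → ℝ}
    (hM : ∀ l < i, M l ≤ 1) (Q : Qt m U) :
    Few S f (vg w) y Q (Qt.pi fun l : Fin i =>
      qLp m ((range (l : ℕ)).image c) (c l) w (s l) (rd l) (M l)) := by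
  refine Few0.few hpos (few_tQt hpos (FewC.few ?_))
  have h1 : Few S f (vg w) y (tQt m) (qPos m c i) := by
    refine Few.fn hpos fun J F => ?_
    obtain ⟨φ, hφ⟩ := hy.2 J F
    exact ⟨fun x (l : Fin i) => φ x l, fun ω => funext fun l => hφ ω l l.2⟩
  have h2 := few_pi_lp hpos hf hy.1 hch hi hM
  have h3 := FewC.seq hpos h1.fewC (FewC.pre hpos (Q := (tQt m).prod (qPos m c i))
    (fun x : Unit × (Fin i → ℤ) => x.2) (fun K e J F A u hu => hu.2) h2.fewC)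
  rw [zero_add] at h3
  intro a ha
  obtain ⟨e, he, H⟩ := h3 a ha
  refine ⟨e, he, fun K => Bas.mono 0 ((H K).and (pos_bas hpos)) ?_⟩
  rintro J - F A ⟨H, hA⟩ u u' hu hu'
  obtain ⟨V, z, hz, h4⟩ := H u (fun ω => ((fun l : Fin i => F.X J ω (c l)), u' ω)) hu
    ⟨fun ω _ => rfl, hu'⟩
  refine ⟨V, z, hz, le_trans (CH_mono_left (isLaw_cond F.isLaw hA).nonneg ?_) h4⟩
  intro ω ω' _ _ hh
  exact (Prod.ext_iff.mp (Prod.ext_iff.mp hh).1).2

/-- **Change of the label of one place**, the lower places are visible exactly. -/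
theorem few_chgX {C₀ : ℝ} (htm : TmC S C₀)
    (hpos : ∀ (τ : ℝ) (J : ℕ) (F : Fam m J) (A : F.Ω → Prop), S.St τ J F A → 0 < Pe F.p A)
    (hf : ∀ (J : ℕ) (F : Fam m J), ∃ φ : α J F → PtT F, ∀ ω, ptr F J ω = φ (f J F ω))
    (hT : Kn ((range 0).image c) 1 1 y) (hy : KnX c i y) (hch : Chn S c 0 r w w u₁ s rd)
    (hi : i ≤ r) (hφ : 0 < φ) {p₁ p₂ : ℝ} (hp₁ : sl - φ ≤ p₁) (hp₂ : sl - φ ≤ p₂)
    (hN : sl - 2 * φ ≤ N) (t0 : N - sl + 20 * ((r : ℝ) + 1) * φ ≤ 1 - w)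
    (t1 : ∀ l < i, N - sl + 20 * ((r : ℝ) + 1) * φ ≤ 1 - s l) :
    Few S f (vg w) y (qJet m ((range i).image c) (c i) 0 w p₁ N)
      (qJet m ((range i).image c) (c i) 0 w p₂ N) := by
  obtain ⟨M, hM⟩ : ∃ M : ℕ → ℝ, M = fun l => s l + (N - sl) + 4 * ((i : ℝ) - l) * φ :=
    ⟨_, rfl⟩
  have hi0 : (i : ℝ) ≤ r := by exact_mod_cast hi
  have hr0 : (0 : ℝ) ≤ r := Nat.cast_nonneg r
  have hrφ : 0 ≤ (r : ℝ) * φ := by positivity
  have hiφ : (i : ℝ) * φ ≤ r * φ := mul_le_mul_of_nonneg_right hi0 hφ.le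
  have hmin : min (1 : ℝ) (1 - w) = 1 - w := min_eq_right (by linarith [hch.w0])
  have hp : sl - φ ≤ min p₁ p₂ := le_min hp₁ hp₂
  have hll : ∀ l l' : ℕ, l < l' → φ ≤ ((l' : ℝ) - l) * φ := by
    intro l l' hl
    have : (l : ℝ) + 1 ≤ l' := by exact_mod_cast hl
    nlinarith
  have hM1 : ∀ l < i, M l ≤ 1 := by
    intro l hl
    have h1 := t1 l hl
    have h5 : 0 ≤ (l : ℝ) * φ := by positivity
    rw [hM]
    simp only
    linarith
  have hx : Exs S (Qt.pi fun l : Fin i =>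
      qLp m ((range (l : ℕ)).image c) (c l) w (s l) (rd l) (M l)) :=
    exs_pi fun l => exs_lp (hch.att l (Nat.zero_le _) (by have := l.2; omega))
  have k1 := (few_pi_lpX hpos hf hy hch hi hM1
    (qJet m ((range i).image c) (c i) 0 w p₁ N)).fewC
  have k2 : FewC S f (vg w) y ((qJet m ((range i).image c) (c i) 0 w p₁ N).prod
      (Qt.pi fun l : Fin i => qLp m ((range (l : ℕ)).image c) (c l) w (s l) (rd l) (M l)))
      (qJet m ((range i).image c) (c i) 0 w p₂ N) 0 := by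
    refine FewC.pre hpos (fun x : ℤ × (Fin i → ℤ) =>
      ((fun l j' => if hl : l < i ∧ j' ≤ 0 then x.2 ⟨l, hl.1⟩ else 0), x.1)) ?_
      (few_jetN (f := f) (y := y) htm
      (hch.take (Nat.zero_le i) hi) (k := c i) (j := 0) (wv := fun _ _ => w)
      (pv := fun l _ => s l) (Nv := fun l _ => M l)
      (lv := fun l => M l - s l - φ / 2) (w₁ := w) (w₂ := w) (p₁ := p₁) (p₂ := p₂)
      (N₁ := N) (N₂ := N) (p₀ := 1) (lam := 1) (σ₀ := φ / 2) (fun _ _ _ _ _ => le_rfl)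
      le_rfl le_rfl hch.u0 le_rfl one_pos (by linarith) (by
        intro l _ hl
        have l1 := hll l i hl
        rw [hM]
        simp only
        linarith) (by
        intro l _ hl j' hj'
        obtain rfl : j' = 0 := by omega
        push_cast
        linarith) (by
        intro l _ hl j' hj'
        rw [hmin, min_self, hM]
        simp only
        have l2 : 0 ≤ (l : ℝ) * φ := by positivity
        linarith) (by
        intro l _ hl j' hj' l' _ hl'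
        rw [min_self, hM]
        simp only
        have l3 := hll l' l hl'
        linarith) le_rfl (by
        rw [hmin]
        push_cast
        linarith) (by
        intro l _ hl
        have l1 := hll l i hl
        rw [hM]
        simp only
        push_cast
        linarith) hf hT).fewC
    rintro K e J F A u ⟨hu1, hu2⟩
    refine ⟨⟨fun l _ hl j' hj' => ?_, fun ω _ l j' hn => ?_⟩, hu1⟩
    · have hlj : l < i ∧ j' ≤ 0 := ⟨hl, hj'⟩
      obtain rfl : j' = 0 := by omega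
      simp only [dif_pos hlj]
      exact qLp_jet (hu2 ⟨l, hl⟩)
    · exact dif_neg fun h => hn ⟨Nat.zero_le _, h.1, h.2⟩
  have k3 := FewC.cut hpos hx k1 k2
  rw [zero_add] at k3
  exact k3.few

/-- **The height given the digits of the position.** -/
theorem few_xj {C₀ : ℝ} (htm : TmC S C₀)
    (hpos : ∀ (τ : ℝ) (J : ℕ) (F : Fam m J) (A : F.Ω → Prop), S.St τ J F A → 0 < Pe F.p A)
    (hf : ∀ (J : ℕ) (F : Fam m J), ∃ φ : α J F → PtT F, ∀ ω, ptr F J ω = φ (f J F ω))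
    (hT : Kn ((range 0).image c) 1 1 y) (hy : KnX c i y) (hch : Chn S c 0 r w w u₁ s rd)
    (hi : i ≤ r) (hφ : 0 < φ) (hrk : rk < 1) (hE : 0 ≤ E)
    (hatt : AttG S ((range i).image c) (c i) w sl rk E) (hp : sl - φ ≤ p) (hN0 : 0 ≤ N)
    (hNE : N + E ≤ 1) (t0 : N - sl + 20 * ((r : ℝ) + 1) * φ ≤ 1 - w)
    (t1 : ∀ l < i, N - sl + 20 * ((r : ℝ) + 1) * φ ≤ 1 - s l) :
    Few S f (vg w) y (qXd m (c i) N) (qJet m ((range i).image c) (c i) 0 w p N) := by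
  rcases le_total N (sl - 2 * φ) with h1 | h1
  · refine Few0.few hpos (few0_jet htm hch.w0 hch.u0 ?_ _ _ _)
    push_cast
    linarith
  · refine Few.trans hpos (exs_lg hE hatt)
      (few_xd_lg hpos hf hy hch.u0.le hrk hE hN0 hNE) ?_
    exact Few.pre hpos (fun x : ℤ => x) (fun K e J F A u hu => qLg_jet hu)
      (few_chgX htm hpos hf hT hy hch hi hφ (sl := sl) (by linarith) hp h1 t0 t1)

/-- **The digits of the position given the height.** -/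
theorem few_jx {C₀ : ℝ} (htm : TmC S C₀)
    (hpos : ∀ (τ : ℝ) (J : ℕ) (F : Fam m J) (A : F.Ω → Prop), S.St τ J F A → 0 < Pe F.p A)
    (hf : ∀ (J : ℕ) (F : Fam m J), ∃ φ : α J F → PtT F, ∀ ω, ptr F J ω = φ (f J F ω))
    (hT : Kn ((range 0).image c) 1 1 y) (hy : KnX c i y) (hch : Chn S c 0 r w w u₁ s rd)
    (hi : i ≤ r) (hφ : 0 < φ) (hrk : rk < 1) (hE : 0 ≤ E)
    (hatt : AttG S ((range i).image c) (c i) w sl rk E) (hp : sl - φ ≤ p) (hN0 : 0 ≤ N)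
    (hNE : N + E ≤ 1) (t0 : N - sl + 20 * ((r : ℝ) + 1) * φ ≤ 1 - w)
    (t1 : ∀ l < i, N - sl + 20 * ((r : ℝ) + 1) * φ ≤ 1 - s l) :
    Few S f (vg w) y (qJet m ((range i).image c) (c i) 0 w p N) (qXd m (c i) N) := by
  have hx : Exs S (qLg m ((range i).image c) (c i) w sl rk E N) := exs_lg hE hatt
  refine Few.trans hpos hx ?_ (few_lg_xd hpos hf hy hch.u0.le hrk hE hN0 hNE)
  refine FewC.few (FewC.post hpos (Q' := qJet m ((range i).image c) (c i) 0 w sl N)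
    (fun x : ℤ => x) (fun K e J F A u hu => ⟨qLg_jet hu, fun _ _ _ _ h => h⟩) ?_)
  rcases le_total N (sl - 2 * φ) with h1 | h1
  · refine (Few0.few hpos (few0_jet htm hch.w0 hch.u0 ?_ _ _ _)).fewC
    push_cast
    linarith
  · exact (few_chgX htm hpos hf hT hy hch hi hφ (sl := sl) hp (by linarith) h1 t0 t1).fewC

end chain

section lad

open Pool.V0F

variable {c : ℕ → Fin m} {r : ℕ} {sn : ℕ → ℝ → ℝ} {G : Set ℝ} {b o φ w pr N rk E : ℝ} {i : ℕ}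

/-- **(EXJ)** The height of the place `i` over a label of the window `w`, to `N` digits, is few bits
given `N` digits of its position, the exact positions of the places `< i` and the record at `w`; and
conversely. `E`: the gradient exponent of the label of the place `i`. -/
theorem exj (h : Lad S c r sn G b o φ) (hi : i ≤ r) (hw : w ∈ G) (hrk : rk < 1) (hE : 0 ≤ E)
    (hatt : AttG S ((range i).image c) (c i) w (sn i w) rk E) (hp : sn i w - φ ≤ pr)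
    (hN0 : 0 ≤ N) (hNE : N + E ≤ 1) (t0 : N + 20 * ((r : ℝ) + 1) * φ ≤ sn i w + (1 - w))
    (t1 : ∀ l < i, N + 20 * ((r : ℝ) + 1) * φ ≤ sn i w + (1 - sn l w)) :
    ∀ ε : ℝ, 0 < ε → ∃ k : ℝ, 0 < k ∧ ∃ e₀ : ℝ, 0 < e₀ ∧ ∀ K : ℕ, Bas S (fun J F A =>
      ∀ (V : Type) (z : F.Ω → V), Mx (fun J F => ptr F J) (vg w) k F A z → ∀ u,
      (qJet m ((range i).image c) (c i) 0 w pr N).P K e₀ J F A u →
      CH (Pool.Agent.H49.Ent.cond F.p A True) u (fun ω => (F.X ⌊N * J⌋₊ ω (c i),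
          (ceI ((range i).image c) (fun _ => J) (F.x ω), (z ω, F.W ω)))) ≤ ε * J ∧
        CH (Pool.Agent.H49.Ent.cond F.p A True) (fun ω => F.X ⌊N * J⌋₊ ω (c i)) (fun ω =>
          (u ω, (ceI ((range i).image c) (fun _ => J) (F.x ω), (z ω, F.W ω)))) ≤ ε * J) := by
  intro ε hε
  obtain ⟨C₀, htm⟩ := h.tm
  obtain ⟨u₁, rd, -, hch⟩ := h.ch.ch w hw
  obtain ⟨y, hy⟩ : ∃ y : ∀ (J : ℕ) (F : Fam m J), F.Ω → (Fin m → ℤ) × _, y = fun J F ω =>
    (ceI ((range i).image c) (fun _ => J) (F.x ω), F.W ω) := ⟨_, rfl⟩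
  have hf : ∀ (J : ℕ) (F : Fam m J), ∃ χ : PtT F → PtT F, ∀ ω, ptr F J ω = χ (ptr F J ω) :=
    fun J F => ⟨fun x => x, fun _ => rfl⟩
  have hT : Kn ((range 0).image c) 1 1 y := by
    intro J F
    obtain ⟨χ, hχ⟩ := kn_W (c := c) J F
    exact ⟨fun x => χ x.2, fun ω => by rw [hy]; exact hχ ω⟩
  have hX : KnX c i y := by
    refine ⟨fun J F => ?_, fun J F => ⟨fun x l => x.1 (c l), fun ω l hl => ?_⟩⟩
    · obtain ⟨χ, hχ⟩ := hT J F
      exact ⟨fun x => (χ x).1, fun ω => (congrArg Prod.fst (hχ ω)).symm⟩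
    · rw [hy]
      have h1 : c l ∈ (range i).image c := mem_image_of_mem _ (mem_range.2 hl)
      simp only [ceI, if_pos h1]
      rfl
  have t0' : N - sn i w + 20 * ((r : ℝ) + 1) * φ ≤ 1 - w := by linarith
  have t1' : ∀ l < i, N - sn i w + 20 * ((r : ℝ) + 1) * φ ≤ 1 - sn l w :=
    fun l hl => by linarith [t1 l hl]
  have k1 := few_xj (f := fun J F => ptr F J) htm h.pos hf hT hX hch hi h.φ0 hrk hE hatt hp hN0
    hNE t0' t1'
  have k2 := few_jx (f := fun J F => ptr F J) htm h.pos hf hT hX hch hi h.φ0 hrk hE hatt hp hN0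
    hNE t0' t1'
  obtain ⟨e1, he1, H1⟩ := k1.mx h.pos ε hε
  obtain ⟨e2, he2, H2⟩ := k2.mx h.pos ε hε
  refine ⟨ε / 2, by positivity, min e1 e2, lt_min he1 he2, fun K => ?_⟩
  refine Bas.mono 0 (((H1 K).and (H2 K)).and (pos_bas h.pos)) ?_
  rintro J - F A ⟨⟨H1, H2⟩, hA⟩ V z hz u hu
  have hcl := isLaw_cond F.isLaw hA
  have a1 := H1 V z hz (fun ω => F.X ⌊N * J⌋₊ ω (c i)) u (fun ω _ => rfl)
    ((qJet m _ _ _ _ _ _).mono le_rfl (min_le_left _ _) hu)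
  have a2 := H2 V z hz u (fun ω => F.X ⌊N * J⌋₊ ω (c i))
    ((qJet m _ _ _ _ _ _).mono le_rfl (min_le_right _ _) hu) (fun ω _ => rfl)
  rw [hy] at a1 a2
  constructor
  · refine (CH_mono_cond hcl.nonneg fun ω ω' _ _ hh => ?_).trans a1
    simp only [Prod.mk.injEq] at hh ⊢
    exact ⟨hh.1, hh.2.2.1, hh.2.1, hh.2.2.2⟩
  · refine (CH_mono_cond hcl.nonneg fun ω ω' _ _ hh => ?_).trans a2
    simp only [Prod.mk.injEq] at hh ⊢
    exact ⟨hh.1, hh.2.2.1, hh.2.1, hh.2.2.2⟩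

/-- **(EXJ)** for the places of the chain. -/
theorem exj_base (h : Lad S c r sn G b o φ) (hi : i < r) (hw : w ∈ G) (hp : sn i w - φ ≤ pr)
    (hN0 : 0 ≤ N) (hN1 : N ≤ 1) (t0 : N + 20 * ((r : ℝ) + 1) * φ ≤ sn i w + (1 - w))
    (t1 : ∀ l < i, N + 20 * ((r : ℝ) + 1) * φ ≤ sn i w + (1 - sn l w)) :
    ∀ ε : ℝ, 0 < ε → ∃ k : ℝ, 0 < k ∧ ∃ e₀ : ℝ, 0 < e₀ ∧ ∀ K : ℕ, Bas S (fun J F A =>
      ∀ (V : Type) (z : F.Ω → V), Mx (fun J F => ptr F J) (vg w) k F A z → ∀ u,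
      (qJet m ((range i).image c) (c i) 0 w pr N).P K e₀ J F A u →
      CH (Pool.Agent.H49.Ent.cond F.p A True) u (fun ω => (F.X ⌊N * J⌋₊ ω (c i),
          (ceI ((range i).image c) (fun _ => J) (F.x ω), (z ω, F.W ω)))) ≤ ε * J ∧
        CH (Pool.Agent.H49.Ent.cond F.p A True) (fun ω => F.X ⌊N * J⌋₊ ω (c i)) (fun ω =>
          (u ω, (ceI ((range i).image c) (fun _ => J) (F.x ω), (z ω, F.W ω)))) ≤ ε * J) := by
  obtain ⟨u₁, rd, -, hch⟩ := h.ch.ch w hw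
  exact exj h hi.le hw (hch.r1 i (Nat.zero_le _) hi) le_rfl
    ((hch.att i (Nat.zero_le _) hi).attG hch.u0.le le_rfl) hp hN0 (by linarith) t0 t1

end lad

end Pool.LA91
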