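import Pool.Agent.H91.V0F.Lp
import Pool.Agent.H91.FR.AllG
import Pool.Agent.H44.V0F.S

/-!
# The positions over the charts of an earlier window are full behind the natural digits

`HtN`: the numbers. `few_posJ`: the heights of a chain are few bits given the positions; `fewC_jPos`:
the positions given the heights to the digits `n` are `(1 - n) log 2 J` bits each; `fewC_ht`: the
heights to the digits `n` over the charts of the window `b` given the record at `x`. `fup`, `fux`: the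
fullness given the record at `x`.
-/

set_option autoImplicit false

namespace Pool.LA91

open Finset Real MvPolynomial
open Pool.Agent.H49.Ent Pool.Agent.H32.Dense Pool.STK Pool.KA Pool.KSAT Pool.K2S Pool.PB Pool.GEN
open Pool.S6C Pool.RCD
open Pool.GRD (LbP)

variable {m : ℕ} {α γ : ∀ J : ℕ, Fam m J → Type}
  {f : ∀ (J : ℕ) (F : Fam m J), F.Ω → α J F} {y : ∀ (J : ℕ) (F : Fam m J), F.Ω → γ J F}
  {S : PCl m}

/-- **The numbers** of the heights to the digits `n` over labels of the precisions `p` at the window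
`b`, levels `s`. -/
structure HtN (r : ℕ) (s : ℕ → ℝ) (b φ : ℝ) (p n : ℕ → ℝ) : Prop where
  hp : ∀ i < r, s i - φ ≤ p i
  lo : ∀ i < r, s i - 2 * φ ≤ n i
  hi : ∀ i < r, n i ≤ 1
  t0 : ∀ i < r, n i - s i + 20 * ((r : ℝ) + 1) * φ ≤ 1 - b
  t1 : ∀ i < r, ∀ l < i, n i - s i + 20 * ((r : ℝ) + 1) * φ ≤ 1 - s l

/-- The digits of the lower heights. -/
noncomputable def dgM (s : ℕ → ℝ) (φ : ℝ) (n : ℕ → ℝ) (i l : ℕ) : ℝ :=
  s l + (n i - s i) + 4 * ((i : ℝ) - l) * φ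

theorem dgM_self (s : ℕ → ℝ) (φ : ℝ) (n : ℕ → ℝ) (i : ℕ) : dgM s φ n i i = n i := by
  unfold dgM
  ring

theorem dgM_le {r : ℕ} {s : ℕ → ℝ} {b φ : ℝ} {p n : ℕ → ℝ} (hφ : 0 < φ) (h : HtN r s b φ p n)
    {i : ℕ} (hi : i < r) {l : ℕ} (hl : l ≤ i) : dgM s φ n i l ≤ 1 := by
  rcases hl.eq_or_lt with rfl | hl
  · rw [dgM_self]
    exact h.hi _ hi
  · have h1 := h.t1 i hi l hl
    have h2 : (i : ℝ) ≤ r := by exact_mod_cast hi.le
    have h3 : (0 : ℝ) ≤ l := Nat.cast_nonneg l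
    have h4 := mul_le_mul_of_nonneg_right h2 hφ.le
    have h5 := mul_nonneg h3 hφ.le
    have h6 := mul_nonneg (Nat.cast_nonneg (α := ℝ) r) hφ.le
    unfold dgM
    linarith

section chain

variable {c : ℕ → Fin m} {r : ℕ} {s rd : ℕ → ℝ} {b u₁ φ : ℝ} {p n : ℕ → ℝ}

/-- The lower heights over labels with bounded gradients are few bits given the positions. -/
theorem few_pi_lp
    (hpos : ∀ (τ : ℝ) (J : ℕ) (F : Fam m J) (A : F.Ω → Prop), S.St τ J F A → 0 < Pe F.p A)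
    (hf : ∀ (J : ℕ) (F : Fam m J), ∃ φ : α J F → PtT F, ∀ ω, ptr F J ω = φ (f J F ω))
    (hT : ∀ (J : ℕ) (F : Fam m J), ∃ φ : γ J F → ℕ, ∀ ω, F.T ω = φ (y J F ω))
    (hch : Chn S c 0 r b b u₁ s rd) {k : ℕ} (hk : k ≤ r) {M : ℕ → ℝ} (hM : ∀ l < k, M l ≤ 1) :
    Few S f (vg b) y (qPos m c k) (Qt.pi fun l : Fin k =>
      qLp m ((range (l : ℕ)).image c) (c l) b (s l) (rd l) (M l)) := by
  refine few_pi hpos fun l => ?_
  have hl : (l : ℕ) < k := l.2
  refine Few.pre hpos (fun (x : Fin k → ℤ) (l' : Fin ((l : ℕ) + 1)) => x ⟨l', by omega⟩) ?_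
    (few_lp (i := (l : ℕ)) hpos hf hT hch.u0.le (hch.r1 l (Nat.zero_le _) (by omega)) (hM l hl))
  intro K e J F A u hu ω hω
  have h1 := hu ω hω
  funext l'
  exact congrFun h1 _

/-- **The height of a coordinate over a label is few bits given the positions.** -/
theorem few_posJ {C₀ : ℝ} (htm : TmC S C₀)
    (hpos : ∀ (τ : ℝ) (J : ℕ) (F : Fam m J) (A : F.Ω → Prop), S.St τ J F A → 0 < Pe F.p A)
    (hf : ∀ (J : ℕ) (F : Fam m J), ∃ φ : α J F → PtT F, ∀ ω, ptr F J ω = φ (f J F ω))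
    (hy : Kn ((range 0).image c) 1 1 y) (hch : Chn S c 0 r b b u₁ s rd)
    (hφ : 0 < φ) (h : HtN r s b φ p n) {i : ℕ} (hi : i < r) :
    Few S f (vg b) y (qPos m c (i + 1)) (qJet m ((range i).image c) (c i) 0 b (p i) (n i)) := by
  have hT : ∀ (J : ℕ) (F : Fam m J), ∃ φ : γ J F → ℕ, ∀ ω, F.T ω = φ (y J F ω) := by
    intro J F
    obtain ⟨χ, hχ⟩ := hy J F
    exact ⟨fun x => (χ x).1, fun ω => (congrArg Prod.fst (hχ ω)).symm⟩
  have hx : Exs S (Qt.pi fun l : Fin (i + 1) =>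
      qLp m ((range (l : ℕ)).image c) (c l) b (s l) (rd l) (dgM s φ n i l)) :=
    exs_pi fun l => exs_lp (hch.att l (Nat.zero_le _) (by have := l.2; omega))
  refine Few.trans hpos hx (few_pi_lp hpos hf hT hch (Nat.succ_le_of_lt hi)
    fun l hl => dgM_le hφ h hi (Nat.lt_succ_iff.1 hl)) ?_
  have hi0 : (i : ℝ) ≤ r := by exact_mod_cast hi.le
  have hr0 : (0 : ℝ) ≤ r := Nat.cast_nonneg r
  have hrφ : 0 ≤ (r : ℝ) * φ := by positivity
  have hiφ : (i : ℝ) * φ ≤ r * φ := mul_le_mul_of_nonneg_right hi0 hφ.le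
  have h0 := h.t0 i hi
  have hlo := h.lo i hi
  have hmin : min (1 : ℝ) (1 - b) = 1 - b := min_eq_right (by linarith [hch.w0])
  have hp : s i - φ ≤ min (s i) (p i) := le_min (by linarith) (h.hp i hi)
  have hll : ∀ l l' : ℕ, l < l' → φ ≤ ((l' : ℝ) - l) * φ := by
    intro l l' hl
    have : (l : ℝ) + 1 ≤ l' := by exact_mod_cast hl
    nlinarith
  refine Few.pre hpos (fun (x : Fin (i + 1) → ℤ) => ((fun l j' => if hl : l < i ∧ j' ≤ 0 then
    x ⟨l, by omega⟩ else 0), x (Fin.last i))) ?_ (few_jetN (f := f) (y := y) htm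
    (hch.take (Nat.zero_le i) hi.le) (k := c i) (j := 0) (wv := fun _ _ => b)
    (pv := fun l _ => s l) (Nv := fun l _ => dgM s φ n i l)
    (lv := fun l => dgM s φ n i l - s l - φ / 2) (w₁ := b) (w₂ := b) (p₁ := s i) (p₂ := p i)
    (N₁ := n i) (N₂ := n i) (p₀ := 1) (lam := 1) (σ₀ := φ / 2) (fun _ _ _ _ _ => le_rfl) le_rfl
    le_rfl hch.u0 le_rfl one_pos (by linarith) (by
      intro l _ hl
      have l1 := hll l i hl
      unfold dgM
      linarith) (by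
      intro l _ hl j' hj'
      obtain rfl : j' = 0 := by omega
      push_cast
      linarith) (by
      intro l _ hl j' hj'
      rw [hmin, min_self]
      unfold dgM
      have l2 : 0 ≤ (l : ℝ) * φ := by positivity
      linarith) (by
      intro l _ hl j' hj' l' _ hl'
      rw [min_self]
      have l3 := hll l' l hl'
      unfold dgM
      linarith) le_rfl (by
      rw [hmin]
      push_cast
      linarith) (by
      intro l _ hl
      have l1 := hll l i hl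
      unfold dgM
      push_cast
      linarith) hf hy)
  intro K e J F A u hu
  refine ⟨⟨fun l _ hl j' hj' => ?_, fun ω _ l j' hn => ?_⟩, ?_⟩
  · have hlj : l < i ∧ j' ≤ 0 := ⟨hl, hj'⟩
    obtain rfl : j' = 0 := by omega
    simp only [dif_pos hlj]
    exact qLp_jet (hu ⟨l, by omega⟩)
  · exact dif_neg fun h => hn ⟨Nat.zero_le _, h.1, h.2⟩
  · have h1 := qLp_jet (hu (Fin.last i))
    simp only [Fin.val_last] at h1
    rw [dgM_self] at h1
    exact h1

/-- **The position given the lower positions and the height over a label.** -/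
theorem fewC_jPos1 {C₀ : ℝ} (htm : TmC S C₀)
    (hpos : ∀ (τ : ℝ) (J : ℕ) (F : Fam m J) (A : F.Ω → Prop), S.St τ J F A → 0 < Pe F.p A)
    (hf : ∀ (J : ℕ) (F : Fam m J), ∃ φ : α J F → PtT F, ∀ ω, ptr F J ω = φ (f J F ω))
    (hy : Kn ((range 0).image c) 1 1 y) (hch : Chn S c 0 r b b u₁ s rd)
    (hφ : 0 < φ) (h : HtN r s b φ p n) {i : ℕ} (hi : i < r) :
    FewC S f (vg b) y ((qPos m c i).prod (qJet m ((range i).image c) (c i) 0 b (p i) (n i)))
      (qX m (c i)) ((1 - n i) * Real.log 2) := by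
  have hT : ∀ (J : ℕ) (F : Fam m J), ∃ φ : γ J F → ℕ, ∀ ω, F.T ω = φ (y J F ω) := by
    intro J F
    obtain ⟨χ, hχ⟩ := hy J F
    exact ⟨fun x => (χ x).1, fun ω => (congrArg Prod.fst (hχ ω)).symm⟩
  have hx : Exs S (Qt.pi fun l : Fin i =>
      qLp m ((range (l : ℕ)).image c) (c l) b (s l) (rd l) (dgM s φ n i l)) :=
    exs_pi fun l => exs_lp (hch.att l (Nat.zero_le _) (by have := l.2; omega))
  have hx2 : Exs S (qLp m ((range i).image c) (c i) b (s i) (rd i) (n i)) :=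
    exs_lp (hch.att i (Nat.zero_le _) hi)
  have hi0 : (i : ℝ) ≤ r := by exact_mod_cast hi.le
  have hr0 : (0 : ℝ) ≤ r := Nat.cast_nonneg r
  have hrφ : 0 ≤ (r : ℝ) * φ := by positivity
  have hiφ : (i : ℝ) * φ ≤ r * φ := mul_le_mul_of_nonneg_right hi0 hφ.le
  have h0 := h.t0 i hi
  have hlo := h.lo i hi
  have hmin : min (1 : ℝ) (1 - b) = 1 - b := min_eq_right (by linarith [hch.w0])
  have hp : s i - φ ≤ min (p i) (s i) := le_min (h.hp i hi) (by linarith)
  have hll : ∀ l l' : ℕ, l < l' → φ ≤ ((l' : ℝ) - l) * φ := by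
    intro l l' hl
    have : (l : ℝ) + 1 ≤ l' := by exact_mod_cast hl
    nlinarith
  have k1 : FewC S f (vg b) y
      ((qPos m c i).prod (qJet m ((range i).image c) (c i) 0 b (p i) (n i)))
      (Qt.pi fun l : Fin i =>
        qLp m ((range (l : ℕ)).image c) (c l) b (s l) (rd l) (dgM s φ n i l)) 0 :=
    (Few.fst hpos (few_pi_lp hpos hf hT hch hi.le fun l hl => dgM_le hφ h hi hl.le)).fewC
  have k2 : FewC S f (vg b) y
      (((qPos m c i).prod (qJet m ((range i).image c) (c i) 0 b (p i) (n i))).prod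
      (Qt.pi fun l : Fin i =>
        qLp m ((range (l : ℕ)).image c) (c l) b (s l) (rd l) (dgM s φ n i l)))
      (qLp m ((range i).image c) (c i) b (s i) (rd i) (n i)) 0 := by
    refine FewC.post hpos (Q' := qJet m ((range i).image c) (c i) 0 b (s i) (n i))
      (fun x : ℤ => x) (fun K e J F A u hu => ⟨qLp_jet hu, fun _ _ _ _ h => h⟩) ?_
    refine FewC.pre hpos (fun x : ((Fin i → ℤ) × ℤ) × (Fin i → ℤ) =>
      ((fun l j' => if hl : l < i ∧ j' ≤ 0 then x.2 ⟨l, hl.1⟩ else 0), x.1.2)) ?_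
      (few_jetN (f := f) (y := y) htm
      (hch.take (Nat.zero_le i) hi.le) (k := c i) (j := 0) (wv := fun _ _ => b)
      (pv := fun l _ => s l) (Nv := fun l _ => dgM s φ n i l)
      (lv := fun l => dgM s φ n i l - s l - φ / 2) (w₁ := b) (w₂ := b) (p₁ := p i) (p₂ := s i)
      (N₁ := n i) (N₂ := n i) (p₀ := 1) (lam := 1) (σ₀ := φ / 2) (fun _ _ _ _ _ => le_rfl)
      le_rfl le_rfl hch.u0 le_rfl one_pos (by linarith) (by
        intro l _ hl
        have l1 := hll l i hl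
        unfold dgM
        linarith) (by
        intro l _ hl j' hj'
        obtain rfl : j' = 0 := by omega
        push_cast
        linarith) (by
        intro l _ hl j' hj'
        rw [hmin, min_self]
        unfold dgM
        have l2 : 0 ≤ (l : ℝ) * φ := by positivity
        linarith) (by
        intro l _ hl j' hj' l' _ hl'
        rw [min_self]
        have l3 := hll l' l hl'
        unfold dgM
        linarith) le_rfl (by
        rw [hmin]
        push_cast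
        linarith) (by
        intro l _ hl
        have l1 := hll l i hl
        unfold dgM
        push_cast
        linarith) hf hy).fewC
    rintro K e J F A u ⟨⟨-, hu1⟩, hu2⟩
    refine ⟨⟨fun l _ hl j' hj' => ?_, fun ω _ l j' hn => ?_⟩, hu1⟩
    · have hlj : l < i ∧ j' ≤ 0 := ⟨hl, hj'⟩
      obtain rfl : j' = 0 := by omega
      simp only [dif_pos hlj]
      exact qLp_jet (hu2 ⟨l, hl⟩)
    · exact dif_neg fun h => hn ⟨Nat.zero_le _, h.1, h.2⟩
  have k3 := FewC.cut hpos hx k1 k2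
  have k5 := few_pos (c := c) (i := i) (p := s i) hpos hf hT hch.u0.le
    (hch.r1 i (Nat.zero_le _) hi) (h.hi i hi)
  have k6 : FewC S f (vg b) y
      (((qPos m c i).prod (qJet m ((range i).image c) (c i) 0 b (p i) (n i))).prod
      (qLp m ((range i).image c) (c i) b (s i) (rd i) (n i))) (qX m (c i))
      ((1 - n i) * Real.log 2) := by
    refine FewC.pre hpos (fun x : ((Fin i → ℤ) × ℤ) × ℤ => (x.1.1, x.2)) ?_ k5
    intro K e J F A u hu
    exact ⟨hu.1.1, hu.2⟩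
  have k4 := FewC.cut hpos hx2 k3 k6
  rw [zero_add, zero_add] at k4
  exact k4

/-- **The positions given the heights.** -/
theorem fewC_jPos {C₀ : ℝ} (htm : TmC S C₀)
    (hpos : ∀ (τ : ℝ) (J : ℕ) (F : Fam m J) (A : F.Ω → Prop), S.St τ J F A → 0 < Pe F.p A)
    (hf : ∀ (J : ℕ) (F : Fam m J), ∃ φ : α J F → PtT F, ∀ ω, ptr F J ω = φ (f J F ω))
    (hy : Kn ((range 0).image c) 1 1 y) (hch : Chn S c 0 r b b u₁ s rd)
    (hφ : 0 < φ) (h : HtN r s b φ p n) {k : ℕ} (hk : k ≤ r) :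
    FewC S f (vg b) y (qJets m c 0 r 0 (fun _ _ => b) (fun l _ => p l) (fun l _ => n l))
      (qPos m c k) (∑ i ∈ range k, (1 - n i) * Real.log 2) := by
  induction k with
  | zero =>
    rw [Finset.range_zero, Finset.sum_empty]
    intro a ha
    refine ⟨1, one_pos, fun K => Bas.mono 0 (pos_bas hpos) ?_⟩
    rintro J - F A hA u u' - -
    have hcl := isLaw_cond F.isLaw hA
    refine ⟨Unit, fun _ => (), ⟨⟨fun _ => (), fun _ _ => rfl⟩, fun _ => (), fun _ _ => rfl⟩, ?_⟩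
    rw [CH_eq_zero hcl.nonneg fun ω ω' _ _ _ => funext fun i => i.elim0, zero_add]
    positivity
  | succ k ih =>
    rw [Finset.sum_range_succ]
    have h1 := ih (by omega)
    have h0 := fewC_jPos1 htm hpos hf hy hch hφ h (i := k) (by omega)
    have h2 : FewC S f (vg b) y ((qJets m c 0 r 0 (fun _ _ => b) (fun l _ => p l)
        (fun l _ => n l)).prod (qPos m c k)) (qX m (c k)) ((1 - n k) * Real.log 2) := by
      refine FewC.pre hpos (fun x : (ℕ → ℕ → ℤ) × (Fin k → ℤ) => (x.2, x.1 k 0)) ?_ h0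
      intro K e J F A u hu
      exact ⟨hu.2, hu.1.1 k (Nat.zero_le _) (by omega) 0 le_rfl⟩
    have h3 := FewC.seq hpos h1 h2
    refine FewC.post (Q'' := qPos m c (k + 1)) hpos (fun x : Fin (k + 1) → ℤ =>
      ((fun l : Fin k => x l.castSucc), x (Fin.last k))) ?_ h3
    intro K e J F A u hu
    refine ⟨⟨fun ω hω => ?_, fun ω hω => ?_⟩, fun ω ω' _ _ hh => ?_⟩
    · have h4 := hu ω hω
      funext l
      exact congrFun h4 l.castSucc
    · have h4 := hu ω hω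
      exact congrFun h4 (Fin.last k)
    · have h4 := Prod.ext_iff.mp hh
      refine funext fun l => ?_
      refine Fin.lastCases h4.2 (fun l => congrFun h4.1 l) l

/-- **The heights given the positions.** -/
theorem few_posJs {C₀ : ℝ} (htm : TmC S C₀)
    (hpos : ∀ (τ : ℝ) (J : ℕ) (F : Fam m J) (A : F.Ω → Prop), S.St τ J F A → 0 < Pe F.p A)
    (hf : ∀ (J : ℕ) (F : Fam m J), ∃ φ : α J F → PtT F, ∀ ω, ptr F J ω = φ (f J F ω))
    (hy : Kn ((range 0).image c) 1 1 y) (hch : Chn S c 0 r b b u₁ s rd)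
    (hφ : 0 < φ) (h : HtN r s b φ p n) :
    Few S f (vg b) y (qPos m c r)
      (qJets m c 0 r 0 (fun _ _ => b) (fun l _ => p l) (fun l _ => n l)) := by
  refine few_qjets hpos fun i _ hi j' hj' => ?_
  obtain rfl : j' = 0 := by omega
  refine Few.pre hpos (fun (x : Fin r → ℤ) (l : Fin (i + 1)) => x ⟨l, by omega⟩) ?_
    (few_posJ htm hpos hf hy hch hφ h hi)
  intro K e J F A u hu ω hω
  have h1 := hu ω hω
  funext l'
  exact congrFun h1 _

end chain

/-- **The heights over the charts of an earlier window** given the record at a later one. -/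
theorem fewC_ht {C₀ : ℝ} (htm : TmC S C₀)
    (hpos : ∀ (τ : ℝ) (J : ℕ) (F : Fam m J) (A : F.Ω → Prop), S.St τ J F A → 0 < Pe F.p A)
    {c : ℕ → Fin m} {r : ℕ} {sn : ℕ → ℝ → ℝ} {G : Set ℝ} (hW : ChG S c r sn G)
    (hf : ∀ (J : ℕ) (F : Fam m J), ∃ φ : α J F → PtT F, ∀ ω, ptr F J ω = φ (f J F ω))
    (hy : Kn ((range 0).image c) 1 1 y) {b x ox φ : ℝ} (hb : b ∈ G) (hx : x ∈ G) (hbx : b ≤ x)
    (hox : x ≤ ox) (hox1 : ox ≤ 1) (hφ : 0 < φ) (hgap : ∀ v, b ≤ v → v ≤ x → ∃ v' ∈ G, |v' - v| ≤ φ)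
    (hfl : ∀ i < r, ∀ v ∈ G, b ≤ v → v ≤ x → |(sn i v - v) - (sn i x - x)| ≤ 2 * φ)
    {p n : ℕ → ℝ} (hp : ∀ i < r, sn i b - φ ≤ p i) (hn : ∀ i < r, sn i x ≤ n i) :
    FewC S f (vg ox) y (tQt m) (qJets m c 0 r 0 (fun _ _ => b) (fun l _ => p l) (fun l _ => n l))
      (∑ i ∈ range r, (n i - sn i x + 8 * ((i : ℝ) + 1) * φ) * Real.log 2) := by
  have h1 : ∀ i : Fin r, FewC S f (vg ox) y (tQt m) (qJet m ((range (i : ℕ)).image c) (c i) 0 b
      (p i) (n i)) ((n i - sn i x + 8 * ((i : ℝ) + 1) * φ) * Real.log 2) := by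
    intro i
    have hir : (i : ℕ) < r := i.2
    have hi0 : (0 : ℝ) ≤ (i : ℕ) := Nat.cast_nonneg _
    have hiφ : 0 ≤ 8 * (((i : ℕ) : ℝ) + 1) * φ := by positivity
    have h2 := hts0S htm hpos hW hf hy (w := b) (o := x) (ow := ox) (φ := 2 * φ) (ρ₀ := φ)
      (ρ' := φ) (κ := φ) hb hx hbx hox hox1 (by linarith) hφ.le hφ.le hφ hgap hfl hir
      (p := min (p i) (sn i b)) (le_min (hp i hir) (by linarith)) (min_le_right _ _)
      (N := sn i x - 8 * (((i : ℕ) : ℝ) + 1) * φ) (by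
        have : (((i : ℕ) : ℝ) + 1) * (2 * (2 * φ) + 2 * φ + φ + φ) =
          8 * (((i : ℕ) : ℝ) + 1) * φ := by ring
        linarith)
    have h3 := few_more hpos (N' := n i) (by linarith [hn i hir])
      (Few0.few (Q₁ := tQt m) hpos h2)
    have h4 := FewC.post (Q'' := qJet m ((range (i : ℕ)).image c) (c i) 0 b (p i) (n i)) hpos
      (fun x : ℤ => x) (fun K e J F A u hu => ⟨qJet_prec (min_le_left _ _) hu,
        fun _ _ _ _ h => h⟩) h3
    refine h4.mono (le_of_eq ?_)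
    ring
  have h2 := fewC_pi hpos h1
  have h3 : ∑ i : Fin r, (n i - sn i x + 8 * ((i : ℝ) + 1) * φ) * Real.log 2 =
      ∑ i ∈ range r, (n i - sn i x + 8 * ((i : ℝ) + 1) * φ) * Real.log 2 :=
    Fin.sum_univ_eq_sum_range
      (fun i : ℕ => (n i - sn i x + 8 * ((i : ℝ) + 1) * φ) * Real.log 2) r
  rw [h3] at h2
  refine FewC.post hpos (fun (u : ℕ → ℕ → ℤ) (i : Fin r) => u i 0) ?_ h2
  rintro K e J F A u ⟨hu1, hu2⟩
  refine ⟨fun i => hu1 i (Nat.zero_le _) i.2 0 le_rfl, fun ω ω' hω hω' hh => ?_⟩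
  funext i j'
  by_cases hin : 0 ≤ i ∧ i < r ∧ j' ≤ 0
  · obtain rfl : j' = 0 := by omega
    exact congrFun hh ⟨i, hin.2.1⟩
  · rw [hu2 ω hω i j' hin, hu2 ω' hω' i j' hin]

/-- **The digits `n` are few enough** to be determined by the positions. -/
structure Tp (r : ℕ) (sn : ℕ → ℝ → ℝ) (b φ : ℝ) (n : ℕ → ℝ) : Prop where
  t0 : ∀ i < r, n i - sn i b + 20 * ((r : ℝ) + 1) * φ ≤ 1 - b
  t1 : ∀ i < r, ∀ l < i, n i - sn i b + 20 * ((r : ℝ) + 1) * φ ≤ 1 - sn l b

section lad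

open Pool.V0F

variable {c : ℕ → Fin m} {r : ℕ} {sn : ℕ → ℝ → ℝ} {G : Set ℝ} {b o φ x : ℝ} {p n q : ℕ → ℝ}

theorem lad_fl (h : Lad S c r sn G b o φ) (hx : x ∈ G) (hbx : b ≤ x) (hxo : x ≤ o) :
    ∀ i < r, ∀ v ∈ G, b ≤ v → v ≤ x → |(sn i v - v) - (sn i x - x)| ≤ 2 * φ := by
  intro i hi v hv h1 h2
  have e1 := abs_le.1 (h.fl i hi v hv h1 (h2.trans hxo))
  have e2 := abs_le.1 (h.fl i hi x hx hbx hxo)
  rw [abs_le]
  constructor <;> linarith [e1.1, e1.2, e2.1, e2.2]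

theorem lad_htN (h : Lad S c r sn G b o φ) (hx : x ∈ G) (hbx : b ≤ x) (hxo : x ≤ o)
    (hp : ∀ i < r, sn i b - φ ≤ p i) (hn : ∀ i < r, sn i x ≤ n i ∧ n i ≤ 1)
    (tp : Tp r sn b φ n) : HtN r (fun i => sn i b) b φ p n where
  hp := hp
  lo i hi := by
    have e1 := abs_le.1 (lad_fl h hx hbx hxo i hi b h.bG le_rfl hbx)
    have e2 := (hn i hi).1
    linarith [e1.1, e1.2]
  hi i hi := (hn i hi).2
  t0 := tp.t0
  t1 := tp.t1

/-- **The heights given the positions**, at the window of the charts. -/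
theorem lad_few_heights {f : ∀ (J : ℕ) (F : Fam m J), F.Ω → α J F}
    {y : ∀ (J : ℕ) (F : Fam m J), F.Ω → γ J F} (h : Lad S c r sn G b o φ)
    (hf : ∀ (J : ℕ) (F : Fam m J), ∃ χ : α J F → PtT F, ∀ ω, ptr F J ω = χ (f J F ω))
    (hy : Kn ((range 0).image c) 1 1 y) (hx : x ∈ G) (hbx : b ≤ x)
    (hxo : x ≤ o) (hp : ∀ i < r, sn i b - φ ≤ p i) (hn : ∀ i < r, sn i x ≤ n i ∧ n i ≤ 1)
    (tp : Tp r sn b φ n) :
    Few S f (vg b) y (qPos m c r)
      (qJets m c 0 r 0 (fun _ _ => b) (fun l _ => p l) (fun l _ => n l)) := by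
  obtain ⟨C₀, htm⟩ := h.tm
  obtain ⟨u₁, rd, -, hch⟩ := h.ch.ch b h.bG
  exact few_posJs htm h.pos hf hy hch h.φ0 (lad_htN h hx hbx hxo hp hn tp)

/-- **The positions given the heights**, at the window of the charts. -/
theorem lad_fewC_positions {f : ∀ (J : ℕ) (F : Fam m J), F.Ω → α J F}
    {y : ∀ (J : ℕ) (F : Fam m J), F.Ω → γ J F} (h : Lad S c r sn G b o φ)
    (hf : ∀ (J : ℕ) (F : Fam m J), ∃ χ : α J F → PtT F, ∀ ω, ptr F J ω = χ (f J F ω))
    (hy : Kn ((range 0).image c) 1 1 y) (hx : x ∈ G) (hbx : b ≤ x)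
    (hxo : x ≤ o) (hp : ∀ i < r, sn i b - φ ≤ p i) (hn : ∀ i < r, sn i x ≤ n i ∧ n i ≤ 1)
    (tp : Tp r sn b φ n) :
    FewC S f (vg b) y (qJets m c 0 r 0 (fun _ _ => b) (fun l _ => p l) (fun l _ => n l))
      (qPos m c r) (∑ i ∈ range r, (1 - n i) * Real.log 2) := by
  obtain ⟨C₀, htm⟩ := h.tm
  obtain ⟨u₁, rd, -, hch⟩ := h.ch.ch b h.bG
  exact fewC_jPos htm h.pos hf hy hch h.φ0 (lad_htN h hx hbx hxo hp hn tp) le_rfl

/-- **The heights given the record** at a later window. -/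
theorem lad_fewC_heights {f : ∀ (J : ℕ) (F : Fam m J), F.Ω → α J F}
    {y : ∀ (J : ℕ) (F : Fam m J), F.Ω → γ J F} (h : Lad S c r sn G b o φ)
    (hf : ∀ (J : ℕ) (F : Fam m J), ∃ χ : α J F → PtT F, ∀ ω, ptr F J ω = χ (f J F ω))
    (hy : Kn ((range 0).image c) 1 1 y) {ox : ℝ} (hx : x ∈ G) (hbx : b ≤ x)
    (hxo : x ≤ o) (hox : x ≤ ox) (hox1 : ox ≤ 1) (hp : ∀ i < r, sn i b - φ ≤ p i)
    (hn : ∀ i < r, sn i x ≤ n i) :
    FewC S f (vg ox) y (tQt m) (qJets m c 0 r 0 (fun _ _ => b) (fun l _ => p l) (fun l _ => n l))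
      (∑ i ∈ range r, (n i - sn i x + 8 * ((i : ℝ) + 1) * φ) * Real.log 2) := by
  obtain ⟨C₀, htm⟩ := h.tm
  exact fewC_ht htm h.pos h.ch hf hy h.bG hx hbx hox hox1 h.φ0
    (fun v h1 h2 => h.gap v h1 (h2.trans hxo)) (lad_fl h hx hbx hxo) hp hn

/-- **The positions are full given the record.** -/
theorem lad_ful (h : Lad S c r sn G b o φ) (hx : x ∈ G) {ε : ℝ} (hε : 0 < ε) :
    Bas S (fun J F A => ∀ (V : Type) (z : F.Ω → V), Cl2 (ptr F J) (vg x J F) A z →
      ∑ i ∈ range r, (1 - sn i x) * Real.log 2 * J - ε * J ≤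
        CH (Pool.Agent.H49.Ent.cond F.p A True) (fun ω => fun l : Fin r => F.X J ω (c l))
          (fun ω => (z ω, F.W ω))) := by
  obtain ⟨u₁, rd, -, hch⟩ := h.ch.ch x hx
  have hl2 : 0 < Real.log 2 := Real.log_pos one_lt_two
  have hr0 : (0 : ℝ) ≤ r := Nat.cast_nonneg r
  obtain ⟨ρ, hρ⟩ : ∃ ρ : ℝ, ρ = ε / ((r + 1) * Real.log 2) := ⟨_, rfl⟩
  have hρ0 : 0 < ρ := by rw [hρ]; positivity
  have hρε : ρ * ((r + 1) * Real.log 2) = ε := by
    rw [hρ]
    exact div_mul_cancel₀ _ (by positivity)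
  refine Bas.mono 0 ((hch.ful ρ hρ0).and (pos_bas h.pos)) ?_
  rintro J - F A ⟨H, hA⟩ V z ⟨⟨φ', hφ'⟩, ψ, hψ⟩
  have hcl := isLaw_cond F.isLaw hA
  have hJ0 : (0 : ℝ) ≤ J := Nat.cast_nonneg J
  have h1 := H V φ' ψ (fun ω hω => (hφ' ω hω).symm.trans (hψ ω hω))
  rw [CH_finch hcl.nonneg (fun i ω => F.X J ω (c i)) (fun ω => (z ω, F.W ω)) r]
  have h2 : ∑ i ∈ range r, (1 - sn i x) * Real.log 2 * J - ε * J ≤
      ∑ i ∈ range r, ((1 - sn i x) - ρ) * Real.log 2 * J := by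
    have e1 : ∑ i ∈ range r, ((1 - sn i x) - ρ) * Real.log 2 * J =
        ∑ i ∈ range r, (1 - sn i x) * Real.log 2 * J - r * (ρ * Real.log 2 * J) := by
      rw [← nsmul_eq_mul, ← Finset.card_range r, ← Finset.sum_const, Finset.card_range,
        ← Finset.sum_sub_distrib]
      refine Finset.sum_congr rfl fun i _ => ?_
      ring
    rw [e1]
    have e2 : ε * J = r * (ρ * Real.log 2 * J) + ρ * Real.log 2 * J := by
      rw [← hρε]
      ring
    have e3 : 0 ≤ ρ * Real.log 2 * J := by positivity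
    linarith
  refine h2.trans (Finset.sum_le_sum fun i hi => ?_)
  refine (h1 i (Nat.zero_le _) (Finset.mem_range.1 hi)).trans (le_of_eq ?_)
  refine CH_congr hcl.nonneg (fun _ _ _ _ h => (Prod.ext_iff.mp h).1)
    (fun _ _ _ _ h => (Prod.ext_iff.mp h).1) ?_ ?_
  · intro ω ω' hω hω' hh
    simp only [Prod.mk.injEq] at hh ⊢
    refine ⟨hh.1, ?_, hh.2.2⟩
    rw [hψ ω (of_cond_pos hω), hψ ω' (of_cond_pos hω')]
    exact hh.2.1
  · intro ω ω' hω hω' hh
    simp only [Prod.mk.injEq] at hh ⊢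
    refine ⟨hh.1, ?_, hh.2.2⟩
    have h3 := hh.2.1
    rw [hψ ω (of_cond_pos hω), hψ ω' (of_cond_pos hω')] at h3
    exact h3

theorem sum_loss (r : ℕ) {φ : ℝ} (hφ : 0 ≤ φ) :
    ∑ i ∈ range r, 8 * ((i : ℝ) + 1) * φ ≤ 20 * (r : ℝ) ^ 2 * φ := by
  induction r with
  | zero => simp
  | succ r ih =>
    rw [Finset.sum_range_succ]
    push_cast
    have h1 : 0 ≤ (r : ℝ) * φ := by positivity
    nlinarith

/-- **(FUP)** The positions of the chain over the charts of `b`, behind the natural digits of `x`,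
are full given the record at `x`. -/
theorem fup (h : Lad S c r sn G b o φ) (hx : x ∈ G) (hbx : b ≤ x) (hxo : x ≤ o)
    (hp : ∀ i < r, sn i b - φ ≤ p i) (hq : ∀ i < r, sn i x ≤ q i ∧ q i ≤ n i ∧ n i ≤ 1)
    (tp : Tp r sn b φ n) :
    ∀ ε : ℝ, 0 < ε → ∃ k : ℝ, 0 < k ∧ ∃ e₀ : ℝ, 0 < e₀ ∧ ∀ K : ℕ, Bas S (fun J F A =>
      ∀ (V : Type) (z : F.Ω → V), Mx (fun J F => ptr F J) (vg x) k F A z → ∀ u u',
      (qJets m c 0 r 0 (fun _ _ => b) (fun l _ => p l) (fun l _ => n l)).P K e₀ J F A u →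
      (qJets m c 0 r 0 (fun _ _ => b) (fun l _ => p l) (fun l _ => q l)).P K e₀ J F A u' →
      ((∑ i ∈ range r, (n i - q i)) - 20 * (r : ℝ) ^ 2 * φ) * Real.log 2 * J - ε * J ≤
        CH (Pool.Agent.H49.Ent.cond F.p A True) u (fun ω => (u' ω, (z ω, F.W ω)))) := by
  intro ε hε
  have hn : ∀ i < r, sn i x ≤ n i ∧ n i ≤ 1 := fun i hi =>
    ⟨(hq i hi).1.trans (hq i hi).2.1, (hq i hi).2.2⟩
  obtain ⟨u₁, rd, -, hch⟩ := h.ch.ch x hx
  have hx1 := hch.u0
  have hl2 : 0 < Real.log 2 := Real.log_pos one_lt_two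
  have hf : ∀ (J : ℕ) (F : Fam m J), ∃ χ : PtT F → PtT F, ∀ ω, ptr F J ω = χ (ptr F J ω) :=
    fun J F => ⟨fun x => x, fun _ => rfl⟩
  have k3 := FewC.up h.pos (f' := fun J F => ptr F J) (g' := vg x) (y' := fun _ F => F.W)
    (fun J F => ⟨fun x => x, fun _ => rfl⟩)
    (fun J F => vg_mono hbx hx1.le J F) (fun J F => ⟨fun x => x, fun _ => rfl⟩)
    (lad_fewC_positions (f := fun J F => ptr F J) (y := fun _ F => F.W) h hf kn_W hx hbx hxo hp hn
      tp)
  have k2 := lad_fewC_heights (f := fun J F => ptr F J) (y := fun _ F => F.W) h hf kn_W hx hbx hxo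
    le_rfl hx1.le hp (fun i hi => (hq i hi).1)
  obtain ⟨e3, he3, H3⟩ := k3.mx h.pos (ε / 4) (by positivity)
  obtain ⟨e2, he2, H2⟩ := k2.mx h.pos (ε / 4) (by positivity)
  refine ⟨ε / 4 / 2, by positivity, min e3 e2, lt_min he3 he2, fun K => ?_⟩
  refine Bas.mono 0 (((H3 K).and (H2 K)).and ((lad_ful h hx (show 0 < ε / 4 by positivity)).and
    (pos_bas h.pos))) ?_
  rintro J - F A ⟨⟨H3, H2⟩, H5, hA⟩ V z hz u u' hu hu'
  have hcl := isLaw_cond F.isLaw hA
  have hJ0 : (0 : ℝ) ≤ J := Nat.cast_nonneg J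
  have a3 := H3 V z hz u (fun ω => fun l : Fin r => F.X J ω (c l))
    ((qJets m c 0 r 0 _ _ _).mono le_rfl (min_le_left _ _) hu) (fun ω _ => rfl)
  have a2 := H2 V z hz (fun _ => ()) u' (fun ω _ => rfl)
    ((qJets m c 0 r 0 _ _ _).mono le_rfl (min_le_right _ _) hu')
  have a5 := H5 V z hz.1
  have s1 := CH_le_add hcl.nonneg (fun ω => fun l : Fin r => F.X J ω (c l)) u
    (fun ω => (z ω, F.W ω))
  have s2 := CH_le_add hcl.nonneg u u' (fun ω => (z ω, F.W ω))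
  have s3 : CH (Pool.Agent.H49.Ent.cond F.p A True) u' (fun ω => (z ω, F.W ω)) ≤
      CH (Pool.Agent.H49.Ent.cond F.p A True) u' (fun ω => ((), (z ω, F.W ω))) :=
    CH_mono_cond hcl.nonneg fun ω ω' _ _ hh => Prod.ext rfl hh
  have s4 := sum_loss r h.φ0.le
  have s5 : (∑ i ∈ range r, (n i - q i)) * Real.log 2 * J =
      ∑ i ∈ range r, (1 - sn i x) * Real.log 2 * J -
      (∑ i ∈ range r, (1 - n i) * Real.log 2) * J -
      (∑ i ∈ range r, (q i - sn i x + 8 * ((i : ℝ) + 1) * φ) * Real.log 2) * J +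
      (∑ i ∈ range r, 8 * ((i : ℝ) + 1) * φ) * Real.log 2 * J := by
    simp only [Finset.sum_mul]
    rw [← Finset.sum_sub_distrib, ← Finset.sum_sub_distrib, ← Finset.sum_add_distrib]
    refine Finset.sum_congr rfl fun i _ => ?_
    ring
  have s6 := mul_le_mul_of_nonneg_right s4 (mul_nonneg hl2.le hJ0)
  nlinarith

/-- **(FUX)** The exact positions, behind the digits `n` over the charts of `b`, are full given the
record at `x`. -/
theorem fux (h : Lad S c r sn G b o φ) (hx : x ∈ G) (hbx : b ≤ x) (hxo : x ≤ o)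
    (hp : ∀ i < r, sn i b - φ ≤ p i) (hn : ∀ i < r, sn i x ≤ n i ∧ n i ≤ 1)
    (tp : Tp r sn b φ n) :
    ∀ ε : ℝ, 0 < ε → ∃ k : ℝ, 0 < k ∧ ∃ e₀ : ℝ, 0 < e₀ ∧ ∀ K : ℕ, Bas S (fun J F A =>
      ∀ (V : Type) (z : F.Ω → V), Mx (fun J F => ptr F J) (vg x) k F A z → ∀ u,
      (qJets m c 0 r 0 (fun _ _ => b) (fun l _ => p l) (fun l _ => n l)).P K e₀ J F A u →
      ((∑ i ∈ range r, (1 - n i)) - 20 * (r : ℝ) ^ 2 * φ) * Real.log 2 * J - ε * J ≤
        CH (Pool.Agent.H49.Ent.cond F.p A True) (fun ω => fun l : Fin r => F.X J ω (c l))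
          (fun ω => (u ω, (z ω, F.W ω))) ∧
      (∀ (V' : Type) (z' : F.Ω → V'), Mx (fun J F => ptr F J) (vg b) k F A z' →
        CH (Pool.Agent.H49.Ent.cond F.p A True) (fun ω => fun l : Fin r => F.X J ω (c l))
          (fun ω => (u ω, (z' ω, F.W ω))) ≤
          (∑ i ∈ range r, (1 - n i)) * Real.log 2 * J + ε * J) ∧
      ∀ (V' : Type) (z' : F.Ω → V'), Mx (fun J F => ptr F J) (vg b) k F A z' →
        CH (Pool.Agent.H49.Ent.cond F.p A True) u
          (fun ω => ((fun l : Fin r => F.X J ω (c l)), (z' ω, F.W ω))) ≤ ε * J) := by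
  intro ε hε
  obtain ⟨u₁, rd, -, hch⟩ := h.ch.ch x hx
  have hx1 := hch.u0
  have hl2 : 0 < Real.log 2 := Real.log_pos one_lt_two
  have hf : ∀ (J : ℕ) (F : Fam m J), ∃ χ : PtT F → PtT F, ∀ ω, ptr F J ω = χ (ptr F J ω) :=
    fun J F => ⟨fun x => x, fun _ => rfl⟩
  have k3 := lad_fewC_positions (f := fun J F => ptr F J) (y := fun _ F => F.W) h hf kn_W hx hbx
    hxo hp hn tp
  have k4 := lad_few_heights (f := fun J F => ptr F J) (y := fun _ F => F.W) h hf kn_W hx hbx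
    hxo hp hn tp
  have k2 := lad_fewC_heights (f := fun J F => ptr F J) (y := fun _ F => F.W) h hf kn_W hx hbx hxo
    le_rfl hx1.le hp (fun i hi => (hn i hi).1)
  obtain ⟨e3, he3, H3⟩ := k3.mx h.pos (ε / 2) (by positivity)
  obtain ⟨e2, he2, H2⟩ := k2.mx h.pos (ε / 2) (by positivity)
  obtain ⟨e4, he4, H4⟩ := k4.mx h.pos (ε / 2) (by positivity)
  refine ⟨ε / 2 / 2, by positivity, min e3 (min e2 e4), lt_min he3 (lt_min he2 he4),
    fun K => ?_⟩
  refine Bas.mono 0 ((((H3 K).and (H2 K)).and (H4 K)).and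
    ((lad_ful h hx (show 0 < ε / 2 by positivity)).and (pos_bas h.pos))) ?_
  rintro J - F A ⟨⟨⟨H3, H2⟩, H4⟩, H5, hA⟩ V z hz u hu
  have hcl := isLaw_cond F.isLaw hA
  have hJ0 : (0 : ℝ) ≤ J := Nat.cast_nonneg J
  have m3 : min e3 (min e2 e4) ≤ e3 := min_le_left _ _
  have m2 : min e3 (min e2 e4) ≤ e2 := (min_le_right _ _).trans (min_le_left _ _)
  have m4 : min e3 (min e2 e4) ≤ e4 := (min_le_right _ _).trans (min_le_right _ _)
  refine ⟨?_, ?_, ?_⟩
  · have a2 := H2 V z hz (fun _ => ()) u (fun ω _ => rfl)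
      ((qJets m c 0 r 0 _ _ _).mono le_rfl m2 hu)
    have a5 := H5 V z hz.1
    have s1 := CH_le_add hcl.nonneg (fun ω => fun l : Fin r => F.X J ω (c l)) u
      (fun ω => (z ω, F.W ω))
    have s3 : CH (Pool.Agent.H49.Ent.cond F.p A True) u (fun ω => (z ω, F.W ω)) ≤
        CH (Pool.Agent.H49.Ent.cond F.p A True) u (fun ω => ((), (z ω, F.W ω))) :=
      CH_mono_cond hcl.nonneg fun ω ω' _ _ hh => Prod.ext rfl hh
    have s4 := sum_loss r h.φ0.le
    have s5 : (∑ i ∈ range r, (1 - n i)) * Real.log 2 * J =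
        ∑ i ∈ range r, (1 - sn i x) * Real.log 2 * J -
        (∑ i ∈ range r, (n i - sn i x + 8 * ((i : ℝ) + 1) * φ) * Real.log 2) * J +
        (∑ i ∈ range r, 8 * ((i : ℝ) + 1) * φ) * Real.log 2 * J := by
      simp only [Finset.sum_mul]
      rw [← Finset.sum_sub_distrib, ← Finset.sum_add_distrib]
      refine Finset.sum_congr rfl fun i _ => ?_
      ring
    have s6 := mul_le_mul_of_nonneg_right s4 (mul_nonneg hl2.le hJ0)
    nlinarith
  · intro V' z' hz'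
    have a3 := H3 V' z' hz' u (fun ω => fun l : Fin r => F.X J ω (c l))
      ((qJets m c 0 r 0 _ _ _).mono le_rfl m3 hu) (fun ω _ => rfl)
    have s5 : (∑ i ∈ range r, (1 - n i)) * Real.log 2 * J =
        (∑ i ∈ range r, (1 - n i) * Real.log 2) * J := by
      simp only [Finset.sum_mul]
    have s6 : 0 ≤ ε * J := by positivity
    rw [s5]
    nlinarith
  · intro V' z' hz'
    have a4 := H4 V' z' hz' (fun ω => fun l : Fin r => F.X J ω (c l)) u (fun ω _ => rfl)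
      ((qJets m c 0 r 0 _ _ _).mono le_rfl m4 hu)
    have s6 : 0 ≤ ε * J := by positivity
    nlinarith

end lad

end Pool.LA91
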