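import Pool.Agent.H91.FR.SlG
import Pool.Agent.H91.FR.Mxl
import Pool.Agent.H91.D2.Tlc3
import Pool.Agent.H72.EXW.Full

/-!
# Positions and heights over labels with bounded gradients

`FewC.pre`, `FewC.post`, `FewC.seq`, `FewC.cut`, `FewC.up`: calculus of `FewC`. `qLp`: the height
over a label with bounded gradients. `few_lp`: it is few bits given the positions; `few_pos`: the
position is `(1 - N) log 2 J` bits given the lower positions and `N` digits of the height.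
-/

set_option autoImplicit false

namespace Pool.LA91

open Finset Real MvPolynomial
open Pool.Agent.H49.Ent Pool.Agent.H32.Dense Pool.STK Pool.KA Pool.KSAT Pool.K2S Pool.PB Pool.GEN
open Pool.S6C Pool.RCD
open Pool.GRD (LbP)
open Pool.EXW (abs_floor_sub)

variable {m : ℕ} {U U' U₀ U₁ U₂ U'' : Type} {α β γ α' β' γ' : ∀ J : ℕ, Fam m J → Type}
  {f : ∀ (J : ℕ) (F : Fam m J), F.Ω → α J F} {g : ∀ (J : ℕ) (F : Fam m J), F.Ω → β J F}
  {y : ∀ (J : ℕ) (F : Fam m J), F.Ω → γ J F} {S : PCl m}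

/-! ### Calculus of `FewC` -/

/-- A function of the first quantity. -/
theorem FewC.pre {Q : Qt m U} {Q₂ : Qt m U₂} {Q' : Qt m U'} {c : ℝ}
    (hpos : ∀ (τ : ℝ) (J : ℕ) (F : Fam m J) (A : F.Ω → Prop), S.St τ J F A → 0 < Pe F.p A)
    (Φ : U → U₂) (hΦ : ∀ (K : ℕ) (e : ℝ) (J : ℕ) (F : Fam m J) (A : F.Ω → Prop) (u : F.Ω → U),
      Q.P K e J F A u → Q₂.P K e J F A (fun ω => Φ (u ω))) (h : FewC S f g y Q₂ Q' c) :
    FewC S f g y Q Q' c := by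
  intro a ha
  obtain ⟨e, he, H⟩ := h a ha
  refine ⟨e, he, fun K => Bas.mono 0 ((H K).and (pos_bas hpos)) ?_⟩
  rintro J - F A ⟨H, hA⟩ u u' hu hu'
  obtain ⟨V, z, hz, h1⟩ := H _ u' (hΦ K e J F A u hu) hu'
  refine ⟨V, z, hz, le_trans (CH_mono_cond (isLaw_cond F.isLaw hA).nonneg ?_) h1⟩
  intro ω ω' _ _ hh
  simp only [Prod.mk.injEq] at hh ⊢
  exact ⟨by rw [hh.1], hh.2⟩

/-- A quantity which is determined by a function of it. -/
theorem FewC.post {Q : Qt m U} {Q' : Qt m U'} {Q'' : Qt m U''} {c : ℝ}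
    (hpos : ∀ (τ : ℝ) (J : ℕ) (F : Fam m J) (A : F.Ω → Prop), S.St τ J F A → 0 < Pe F.p A)
    (Φ : U'' → U') (hΦ : ∀ (K : ℕ) (e : ℝ) (J : ℕ) (F : Fam m J) (A : F.Ω → Prop)
      (u : F.Ω → U''), Q''.P K e J F A u → Q'.P K e J F A (fun ω => Φ (u ω)) ∧
        ∀ ω ω', A ω → A ω' → Φ (u ω) = Φ (u ω') → u ω = u ω') (h : FewC S f g y Q Q' c) :
    FewC S f g y Q Q'' c := by
  intro a ha
  obtain ⟨e, he, H⟩ := h a ha
  refine ⟨e, he, fun K => Bas.mono 0 ((H K).and (pos_bas hpos)) ?_⟩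
  rintro J - F A ⟨H, hA⟩ u u' hu hu'
  obtain ⟨h1, h2⟩ := hΦ K e J F A u' hu'
  obtain ⟨V, z, hz, h3⟩ := H u _ hu h1
  refine ⟨V, z, hz, le_trans (CH_mono_left (isLaw_cond F.isLaw hA).nonneg ?_) h3⟩
  intro ω ω' hω hω' hh
  exact h2 ω ω' (of_cond_pos hω) (of_cond_pos hω') (Prod.ext_iff.mp hh).1

/-- One after the other. -/
theorem FewC.seq {Q : Qt m U} {Q₁ : Qt m U₁} {Q₂ : Qt m U₂} {c₁ c₂ : ℝ}
    (hpos : ∀ (τ : ℝ) (J : ℕ) (F : Fam m J) (A : F.Ω → Prop), S.St τ J F A → 0 < Pe F.p A)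
    (h₁ : FewC S f g y Q Q₁ c₁) (h₂ : FewC S f g y (Q.prod Q₁) Q₂ c₂) :
    FewC S f g y Q (Q₁.prod Q₂) (c₁ + c₂) := by
  intro c hc
  obtain ⟨e₁, he₁, H₁⟩ := h₁ (c / 2) (half_pos hc)
  obtain ⟨e₂, he₂, H₂⟩ := h₂ (c / 2) (half_pos hc)
  refine ⟨min e₁ e₂, lt_min he₁ he₂, fun K => Bas.mono 0 (((H₁ K).and (H₂ K)).and
    (pos_bas hpos)) ?_⟩
  rintro J - F A ⟨⟨H₁, H₂⟩, hA⟩ u u' hu hu'
  have hcl := isLaw_cond F.isLaw hA
  have l1 : min e₁ e₂ ≤ e₁ := min_le_left _ _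
  have l2 : min e₁ e₂ ≤ e₂ := min_le_right _ _
  obtain ⟨V, z, hz, a1⟩ := H₁ u (fun ω => (u' ω).1) (Q.mono le_rfl l1 hu)
    (Q₁.mono le_rfl l1 hu'.1)
  obtain ⟨V', z', hz', a2⟩ := H₂ (fun ω => (u ω, (u' ω).1)) (fun ω => (u' ω).2)
    ⟨Q.mono le_rfl l2 hu, Q₁.mono le_rfl l2 hu'.1⟩ (Q₂.mono le_rfl l2 hu'.2)
  refine ⟨_, _, hz.join hz', ?_⟩
  have s1 := CH_chain hcl.nonneg (fun ω => (u' ω).2) (fun ω => (u' ω).1)
    (fun ω => (u ω, ((z ω, z' ω), y J F ω)))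
  have s2 : CH (Pool.Agent.H49.Ent.cond F.p A True) (fun ω => (u' ω).1)
      (fun ω => (u ω, ((z ω, z' ω), y J F ω))) ≤
      CH (Pool.Agent.H49.Ent.cond F.p A True) (fun ω => (u' ω).1)
        (fun ω => (u ω, (z ω, y J F ω))) := by
    refine CH_mono_cond hcl.nonneg fun ω ω' _ _ hh => ?_
    simp only [Prod.mk.injEq] at hh ⊢
    exact ⟨hh.1, hh.2.1.1, hh.2.2⟩
  have s3 : CH (Pool.Agent.H49.Ent.cond F.p A True) (fun ω => (u' ω).2)
      (fun ω => ((u' ω).1, (u ω, ((z ω, z' ω), y J F ω)))) ≤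
      CH (Pool.Agent.H49.Ent.cond F.p A True) (fun ω => (u' ω).2)
        (fun ω => ((u ω, (u' ω).1), (z' ω, y J F ω))) := by
    refine CH_mono_cond hcl.nonneg fun ω ω' _ _ hh => ?_
    simp only [Prod.mk.injEq] at hh ⊢
    exact ⟨⟨hh.2.1, hh.1⟩, hh.2.2.1.2, hh.2.2.2⟩
  have s4 : CH (Pool.Agent.H49.Ent.cond F.p A True) u' (fun ω => (u ω, ((z ω, z' ω), y J F ω))) ≤
      CH (Pool.Agent.H49.Ent.cond F.p A True) (fun ω => ((u' ω).2, (u' ω).1))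
        (fun ω => (u ω, ((z ω, z' ω), y J F ω))) := by
    refine CH_mono_left hcl.nonneg fun ω ω' _ _ hh => ?_
    simp only [Prod.mk.injEq] at hh
    exact Prod.ext hh.1.2 hh.1.1
  change CH (Pool.Agent.H49.Ent.cond F.p A True) u' (fun ω => (u ω, ((z ω, z' ω), y J F ω))) ≤
    (c₁ + c₂ + c) * J
  linarith

/-- Through a third quantity. -/
theorem FewC.cut {Q : Qt m U} {Q₁ : Qt m U₁} {Q₂ : Qt m U₂} {c₁ c₂ : ℝ}
    (hpos : ∀ (τ : ℝ) (J : ℕ) (F : Fam m J) (A : F.Ω → Prop), S.St τ J F A → 0 < Pe F.p A)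
    (x₁ : Exs S Q₁) (h₁ : FewC S f g y Q Q₁ c₁) (h₂ : FewC S f g y (Q.prod Q₁) Q₂ c₂) :
    FewC S f g y Q Q₂ (c₁ + c₂) := by
  intro c hc
  obtain ⟨e₁, he₁, H₁⟩ := h₁ (c / 2) (half_pos hc)
  obtain ⟨e₂, he₂, H₂⟩ := h₂ (c / 2) (half_pos hc)
  have l1 : min e₁ e₂ ≤ e₁ := min_le_left _ _
  have l2 : min e₁ e₂ ≤ e₂ := min_le_right _ _
  obtain ⟨K₁, M₁, hx⟩ := x₁ (min e₁ e₂) (lt_min he₁ he₂)
  refine ⟨min e₁ e₂, lt_min he₁ he₂, fun K => Bas.mono 0 ((((H₁ (max K K₁)).and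
    (H₂ (max K K₁))).and hx).and (pos_bas hpos)) ?_⟩
  rintro J - F A ⟨⟨⟨H₁, H₂⟩, u₁, hu₁, -⟩, hA⟩ u u₂ hu hu₂
  have hcl := isLaw_cond F.isLaw hA
  obtain ⟨V, z, hz, a1⟩ := H₁ u u₁ (Q.mono (le_max_left _ _) l1 hu)
    (Q₁.mono (le_max_right _ _) l1 hu₁)
  obtain ⟨V', z', hz', a2⟩ := H₂ (fun ω => (u ω, u₁ ω)) u₂
    ⟨Q.mono (le_max_left _ _) l2 hu, Q₁.mono (le_max_right _ _) l2 hu₁⟩
    (Q₂.mono (le_max_left _ _) l2 hu₂)
  refine ⟨_, _, hz.join hz', ?_⟩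
  have s1 := CH_le_add hcl.nonneg u₂ u₁ (fun ω => (u ω, ((z ω, z' ω), y J F ω)))
  have s2 : CH (Pool.Agent.H49.Ent.cond F.p A True) u₁
      (fun ω => (u ω, ((z ω, z' ω), y J F ω))) ≤
      CH (Pool.Agent.H49.Ent.cond F.p A True) u₁ (fun ω => (u ω, (z ω, y J F ω))) := by
    refine CH_mono_cond hcl.nonneg fun ω ω' _ _ hh => ?_
    simp only [Prod.mk.injEq] at hh ⊢
    exact ⟨hh.1, hh.2.1.1, hh.2.2⟩
  have s3 : CH (Pool.Agent.H49.Ent.cond F.p A True) u₂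
      (fun ω => (u₁ ω, (u ω, ((z ω, z' ω), y J F ω)))) ≤
      CH (Pool.Agent.H49.Ent.cond F.p A True) u₂ (fun ω => ((u ω, u₁ ω), (z' ω, y J F ω))) := by
    refine CH_mono_cond hcl.nonneg fun ω ω' _ _ hh => ?_
    simp only [Prod.mk.injEq] at hh ⊢
    exact ⟨⟨hh.2.1, hh.1⟩, hh.2.2.1.2, hh.2.2.2⟩
  change CH (Pool.Agent.H49.Ent.cond F.p A True) u₂ (fun ω => (u ω, ((z ω, z' ω), y J F ω))) ≤
    (c₁ + c₂ + c) * J
  linarith

/-- Finer records. -/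
theorem FewC.up {Q : Qt m U} {Q' : Qt m U'} {f' : ∀ (J : ℕ) (F : Fam m J), F.Ω → α' J F}
    {g' : ∀ (J : ℕ) (F : Fam m J), F.Ω → β' J F} {y' : ∀ (J : ℕ) (F : Fam m J), F.Ω → γ' J F}
    {a : ℝ}
    (hpos : ∀ (τ : ℝ) (J : ℕ) (F : Fam m J) (A : F.Ω → Prop), S.St τ J F A → 0 < Pe F.p A)
    (hf : ∀ (J : ℕ) (F : Fam m J), ∃ φ : α' J F → α J F, ∀ ω, f J F ω = φ (f' J F ω))
    (hg : ∀ (J : ℕ) (F : Fam m J), ∃ φ : β' J F → β J F, ∀ ω, g J F ω = φ (g' J F ω))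
    (hy : ∀ (J : ℕ) (F : Fam m J), ∃ φ : γ' J F → γ J F, ∀ ω, y J F ω = φ (y' J F ω))
    (h : FewC S f g y Q Q' a) : FewC S f' g' y' Q Q' a := by
  intro c hc
  obtain ⟨e, he, H⟩ := h c hc
  refine ⟨e, he, fun K => Bas.mono 0 ((H K).and (pos_bas hpos)) ?_⟩
  rintro J - F A ⟨H, hA⟩ u u' hu hu'
  obtain ⟨V, z, hz, h1⟩ := H u u' hu hu'
  obtain ⟨φ, hφ⟩ := hf J F
  obtain ⟨ψ, hψ⟩ := hg J F
  obtain ⟨χ, hχ⟩ := hy J F
  refine ⟨V, z, hz.mono ⟨φ, fun ω _ => hφ ω⟩ ⟨ψ, fun ω _ => hψ ω⟩,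
    le_trans (CH_mono_cond (isLaw_cond F.isLaw hA).nonneg ?_) h1⟩
  intro ω ω' _ _ hh
  simp only [Prod.mk.injEq] at hh ⊢
  exact ⟨hh.1, hh.2.1, by rw [hχ ω, hχ ω', hh.2.2]⟩

/-- A smaller precision of the label. -/
theorem qJet_prec {I : Finset (Fin m)} {k : Fin m} {j : ℕ} {w p p' N : ℝ} (hp : p' ≤ p) {K : ℕ}
    {e : ℝ} {J : ℕ} {F : Fam m J} {A : F.Ω → Prop} {u : F.Ω → ℤ}
    (h : (qJet m I k j w p N).P K e J F A u) : (qJet m I k j w p' N).P K e J F A u := by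
  obtain ⟨hc, V, z, z', G, hl, hu⟩ := h
  exact ⟨hc, V, z, z', G, hl.mono (Finset.Subset.refl _) le_rfl
    (Nat.floor_le_floor (mul_le_mul_of_nonneg_right (by linarith) (Nat.cast_nonneg J))), hu⟩

/-! ### The values of a label at near points -/

/-- The values of the polynomial of a label at two points which are near in the coordinates of the
label. -/
theorem lb_near {J : ℕ} {F : Fam m J} {A : F.Ω → Prop} {I : Finset (Fin m)} {k : Fin m}
    {K e r w ρ P u : ℕ} {V : Type} {z : PtT F → V} {z' : LnT F → V}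
    {G : V → MvPolynomial (Option (Fin m)) ℝ} (h : LbOK F I k K e r w ρ P A z z' G)
    (hρ : ρ ≤ u) {ω ω' : F.Ω} (hω : A ω) (h1 : ∀ i ∈ I, |F.x ω' i - F.x ω i| ≤ 1 / 2 ^ u)
    (h2 : z' (slam F w ω) = z' (slam F w ω')) (h3 : F.T ω = F.T ω') :
    |eval (bt F ω') (G (z' (slam F w ω'))) - eval (bt F ω) (G (z' (slam F w ω)))| ≤
      2 ^ e * ((m + 1) * (1 / 2 ^ u)) := by
  classical
  have hu0 : (0 : ℝ) < 2 ^ u := by positivity
  have ht : F.t ω = F.t ω' := by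
    unfold Fam.t
    rw [h3]
  obtain ⟨b, hb⟩ : ∃ b : Option (Fin m) → ℝ, b = fun o => match o with
      | none => F.t ω
      | some i => if i ∈ I then F.x ω' i else F.x ω i := ⟨_, rfl⟩
  have hyn : b none = bt F ω none := by rw [hb]; rfl
  have hyI : ∀ i ∈ I, b (some i) = F.x ω' i := by
    intro i hi
    rw [hb]
    exact if_pos hi
  have hyO : ∀ i ∉ I, b (some i) = F.x ω i := by
    intro i hi
    rw [hb]
    exact if_neg hi
  have hd : ∀ o, |b o - bt F ω o| ≤ 1 / 2 ^ u := by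
    intro o
    rcases o with - | i
    · rw [hyn, sub_self, abs_zero]
      positivity
    · by_cases hi : i ∈ I
      · rw [hyI i hi]
        exact h1 i hi
      · rw [hyO i hi]
        change |F.x ω i - F.x ω i| ≤ _
        rw [sub_self, abs_zero]
        positivity
  have h4 : eval (bt F ω') (G (z' (slam F w ω'))) = eval b (G (z' (slam F w ω))) := by
    rw [← h2]
    refine h.dep _ _ _ ?_ fun i hi => ?_
    · rw [hyn]
      exact ht.symm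
    · rw [hyI i hi]
      rfl
  have h5 := mvσ (G (z' (slam F w ω))) (bt F ω) b (2 ^ e) fun y' hy' i =>
    h.lip ω hω y' (fun o => ((hy' o).trans (hd o)).trans (inv_mono hρ)) i
  have h6 : ∑ o, |b o - bt F ω o| ≤ (m + 1) * (1 / 2 ^ u) := by
    refine (Finset.sum_le_sum fun o _ => hd o).trans (le_of_eq ?_)
    rw [Finset.sum_const, Finset.card_univ, Fintype.card_option, Fintype.card_fin, nsmul_eq_mul]
    push_cast
    ring
  rw [h4]
  exact h5.trans (mul_le_mul_of_nonneg_left h6 (by positivity))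

/-! ### The height over a label with bounded gradients -/

/-- **The height of the coordinate `k` over a label with bounded gradients.** -/
noncomputable def qLp (m : ℕ) (I : Finset (Fin m)) (k : Fin m) (w p rd N : ℝ) : Qt m ℤ where
  P K e J F A u := (cnt F.p u A : ℝ) ≤ Real.exp (K * J) ∧
    ∃ (V : Type) (z : PtT F → V) (z' : LnT F → V) (G : V → MvPolynomial (Option (Fin m)) ℝ),
      LbOK F I k K ⌊e * J⌋₊ J ⌊w * J⌋₊ ⌊(rd + e) * J⌋₊ ⌊(p - e) * J⌋₊ A z z' G ∧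
      ∀ ω, A ω → u ω = ⌊(2 : ℝ) ^ (N * J) * ojet F k 0 (G (z' (slam F ⌊w * J⌋₊ ω))) ω⌋
  sub := by
    rintro K e J F A B u hB ⟨hc, V, z, z', G, hl, hu⟩
    refine ⟨le_trans ?_ hc, V, z, z', G, hl.sub hB, fun ω hω => hu ω (hB ω hω)⟩
    exact_mod_cast cnt_mono F.p u hB
  mono := by
    rintro K K' e e' J F A u hK he ⟨hc, V, z, z', G, hl, hu⟩
    have hJ : (0 : ℝ) ≤ J := Nat.cast_nonneg J
    refine ⟨hc.trans (Real.exp_le_exp.2 ?_), V, z, z', G, hl.mono (Finset.Subset.refl _) hK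
      (Nat.floor_le_floor (mul_le_mul_of_nonneg_right he hJ))
      (Nat.floor_le_floor (mul_le_mul_of_nonneg_right (by linarith) hJ))
      (Nat.floor_le_floor (mul_le_mul_of_nonneg_right (by linarith) hJ)), hu⟩
    exact mul_le_mul_of_nonneg_right (by exact_mod_cast hK) hJ

theorem qLp_jet {I : Finset (Fin m)} {k : Fin m} {w p rd N : ℝ} {K : ℕ} {e : ℝ} {J : ℕ}
    {F : Fam m J} {A : F.Ω → Prop} {u : F.Ω → ℤ} (h : (qLp m I k w p rd N).P K e J F A u) :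
    (qJet m I k 0 w p N).P K e J F A u := by
  obtain ⟨hc, V, z, z', G, hl, hu⟩ := h
  exact ⟨hc, V, z, z', G, LbP.of hl, hu⟩

/-- **The height over a label with bounded gradients exists.** -/
theorem exs_lp {I : Finset (Fin m)} {k : Fin m} {w p r N : ℝ} (h : Att S I k w p r) :
    Exs S (qLp m I k w p r N) := by
  intro e he
  obtain ⟨K, hK⟩ := h e he
  obtain ⟨C, hC, hbig⟩ := ojet_big m K 0
  have hC0 : 0 < C := by linarith
  have hl2 : 0 < Real.log 2 := Real.log_pos one_lt_two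
  obtain ⟨B, hB⟩ : ∃ B : ℝ, B = |N| + e := ⟨_, rfl⟩
  have hB0 : 0 ≤ B := by
    rw [hB]
    positivity
  obtain ⟨M, hM⟩ : ∃ M : ℕ, M = max K ⌈B * Real.log 2 + 1⌉₊ := ⟨_, rfl⟩
  have hM1 : B * Real.log 2 + 1 ≤ M := by
    refine (Nat.le_ceil _).trans ?_
    rw [hM]
    exact_mod_cast le_max_right _ _
  have hKM : K ≤ M := by
    rw [hM]
    exact le_max_left _ _
  obtain ⟨J₁, hJ₁⟩ := exists_nat_ge (Real.log (2 * (C + 1) + 1))
  refine ⟨M, M, Bas.mono J₁ hK ?_⟩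
  rintro J hJ F A ⟨V, z, z', G, hlb⟩
  have hJ0 : (0 : ℝ) ≤ J := Nat.cast_nonneg J
  have hJ1 : (J₁ : ℝ) ≤ J := by exact_mod_cast hJ
  have hcnt : (cnt F.p (fun ω => ⌊(2 : ℝ) ^ (N * J) *
      ojet F k 0 (G (z' (slam F ⌊w * J⌋₊ ω))) ω⌋) A : ℝ) ≤ Real.exp (M * J) := by
    have b1 : (1 : ℝ) ≤ 2 ^ (B * J) := by
      rw [← exp_p2]
      exact Real.one_le_exp (by positivity)
    have h1 := cnt_le_of_abs (p := F.p) (u := fun ω => ⌊(2 : ℝ) ^ (N * J) *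
      ojet F k 0 (G (z' (slam F ⌊w * J⌋₊ ω))) ω⌋) (A := A) (B := (C + 1) * 2 ^ (B * J))
      (by positivity) (by
        intro ω hω
        have h2 := hbig J F I k _ _ _ _ A V z z' G hlb ω hω
        obtain ⟨o, ho⟩ : ∃ o, o = ojet F k 0 (G (z' (slam F ⌊w * J⌋₊ ω))) ω := ⟨_, rfl⟩
        rw [← ho, pow_zero, mul_one] at h2
        rw [← ho]
        have h3 : |(2 : ℝ) ^ (N * J) * o| ≤ C * 2 ^ (B * J) := by
          rw [abs_mul, abs_of_pos (by positivity)]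
          have a2 : (2 : ℝ) ^ ⌊e * J⌋₊ ≤ 2 ^ (e * J) := p2_le (by positivity)
          have b3 : (0 : ℝ) < 2 ^ (N * J) := Real.rpow_pos_of_pos (by norm_num) _
          have b4 : (0 : ℝ) < 2 ^ (e * J) := Real.rpow_pos_of_pos (by norm_num) _
          calc (2 : ℝ) ^ (N * J) * |o| ≤ 2 ^ (N * J) * (C * 2 ^ (e * J)) := by
                refine mul_le_mul_of_nonneg_left (h2.trans ?_) b3.le
                exact mul_le_mul_of_nonneg_left a2 hC0.le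
            _ = C * (2 ^ (N * J) * 2 ^ (e * J)) := by ring
            _ ≤ C * 2 ^ (B * J) := by
                rw [← Real.rpow_add (by norm_num)]
                refine mul_le_mul_of_nonneg_left ?_ hC0.le
                refine Real.rpow_le_rpow_of_exponent_le (by norm_num) ?_
                have := mul_le_mul_of_nonneg_right (le_abs_self N) hJ0
                rw [hB]
                linarith
        have h4 := Int.floor_le ((2 : ℝ) ^ (N * J) * o)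
        have h5 := Int.lt_floor_add_one ((2 : ℝ) ^ (N * J) * o)
        have h6 := abs_le.1 h3
        rw [abs_le]
        constructor <;> nlinarith [h6.1, h6.2])
    refine h1.trans ?_
    have h2 : 2 * ((C + 1) * 2 ^ (B * J)) + 1 ≤ (2 * (C + 1) + 1) * 2 ^ (B * J) := by linarith
    refine h2.trans ?_
    rw [← exp_p2]
    calc (2 * (C + 1) + 1) * Real.exp (B * J * Real.log 2)
        = Real.exp (Real.log (2 * (C + 1) + 1)) * Real.exp (B * J * Real.log 2) := by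
          rw [Real.exp_log (by positivity)]
      _ = Real.exp (Real.log (2 * (C + 1) + 1) + B * J * Real.log 2) := (Real.exp_add _ _).symm
      _ ≤ Real.exp (M * J) := by
          refine Real.exp_le_exp.2 ?_
          have := mul_le_mul_of_nonneg_right hM1 hJ0
          nlinarith [hJ₁.trans hJ1]
  exact ⟨_, ⟨hcnt, V, z, z', G, hlb.mono (Finset.Subset.refl _) hKM le_rfl le_rfl le_rfl,
    fun ω _ => rfl⟩, hcnt⟩

/-- The positions of the chain. -/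
noncomputable def qPos (m : ℕ) (c : ℕ → Fin m) (n : ℕ) : Qt m (Fin n → ℤ) :=
  Qt.fn (fun J F ω (l : Fin n) => F.X J ω (c l))

/-- The position of one coordinate. -/
noncomputable def qX (m : ℕ) (k : Fin m) : Qt m ℤ := Qt.fn (fun J F ω => F.X J ω k)

theorem X_near {J : ℕ} {F : Fam m J} {ω ω' : F.Ω} {i : Fin m} (h : F.X J ω i = F.X J ω' i) :
    |F.x ω' i - F.x ω i| ≤ 1 / 2 ^ J := by
  have hu0 : (0 : ℝ) < 2 ^ J := by positivity
  have h4 := Int.abs_sub_lt_one_of_floor_eq_floor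
    (show ⌊(2 : ℝ) ^ J * F.x ω i⌋ = ⌊(2 : ℝ) ^ J * F.x ω' i⌋ from h)
  rw [← mul_sub, abs_mul, abs_of_pos hu0] at h4
  rw [abs_sub_comm, le_div_iff₀ hu0]
  linarith

theorem log_room {m : ℕ} {h : ℝ} (hh : 0 < h) : ∃ J₀ : ℕ, ∀ J : ℕ, J₀ ≤ J → ∀ (L x : ℝ),
    0 ≤ x → 0 ≤ L → L ≤ 2 ^ (x * J) * (m + 4) →
    Real.log (2 * L + 1) ≤ (x * Real.log 2 + h) * J := by
  obtain ⟨J₁, hJ₁⟩ := exists_nat_ge (Real.log (2 * (m + 4) + 1) / h)
  refine ⟨J₁, fun J hJ L x hx hL hL2 => ?_⟩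
  have hJ0 : (0 : ℝ) ≤ J := Nat.cast_nonneg J
  have hJ1 : (J₁ : ℝ) ≤ J := by exact_mod_cast hJ
  have b1 : (1 : ℝ) ≤ 2 ^ (x * J) := by
    rw [← exp_p2]
    exact Real.one_le_exp (mul_nonneg (mul_nonneg hx hJ0) (Real.log_nonneg (by norm_num)))
  have hm0 : (0 : ℝ) ≤ m := Nat.cast_nonneg m
  have h1 : 2 * L + 1 ≤ 2 ^ (x * J) * (2 * (m + 4) + 1) := by nlinarith
  refine (Real.log_le_log (by positivity) h1).trans ?_
  rw [Real.log_mul (by positivity) (by positivity), ← exp_p2, Real.log_exp]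
  have h2 : Real.log (2 * (m + 4) + 1) ≤ h * J := by
    have := hJ₁.trans hJ1
    rw [div_le_iff₀ hh] at this
    linarith
  nlinarith

/-- **The height over a label with bounded gradients is few bits given the positions.** -/
theorem few_lp
    (hpos : ∀ (τ : ℝ) (J : ℕ) (F : Fam m J) (A : F.Ω → Prop), S.St τ J F A → 0 < Pe F.p A)
    (hf : ∀ (J : ℕ) (F : Fam m J), ∃ φ : α J F → PtT F, ∀ ω, ptr F J ω = φ (f J F ω))
    (hT : ∀ (J : ℕ) (F : Fam m J), ∃ φ : γ J F → ℕ, ∀ ω, F.T ω = φ (y J F ω)) {c : ℕ → Fin m}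
    {i : ℕ} {w p rd N : ℝ} (hw : w ≤ 1) (hrd : rd < 1) (hN : N ≤ 1) :
    Few S f (vg w) y (qPos m c (i + 1)) (qLp m ((range i).image c) (c i) w p rd N) := by
  intro h hh
  obtain ⟨J₀, hJ₀⟩ := log_room (m := m) (half_pos hh)
  obtain ⟨e, hee⟩ : ∃ e : ℝ, e = min (h / 2) (1 - rd) := ⟨_, rfl⟩
  have he : 0 < e := by rw [hee]; exact lt_min (half_pos hh) (by linarith)
  have he1 : e ≤ h / 2 := by rw [hee]; exact min_le_left _ _
  have he2 : rd + e ≤ 1 := by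
    have : e ≤ 1 - rd := by rw [hee]; exact min_le_right _ _
    linarith
  have hl2 : 0 < Real.log 2 := Real.log_pos one_lt_two
  have hl21 : Real.log 2 ≤ 1 := by
    have := Real.log_two_lt_d9
    linarith
  refine ⟨e, he, fun K => Bas.mono J₀ (pos_bas hpos) ?_⟩
  rintro J hJ F A hA u u' hu ⟨hc, V, z, z', G, hlb, hu'⟩
  have hcl := isLaw_cond F.isLaw hA
  have hJ0 : (0 : ℝ) ≤ J := Nat.cast_nonneg J
  refine ⟨V, fun ω => z' (slam F ⌊w * J⌋₊ ω), lb_cl2 le_rfl hw (LbP.of hlb) (hf J F), ?_⟩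
  obtain ⟨φ, hφ⟩ := hT J F
  have hfl : ⌊(rd + e) * J⌋₊ ≤ J := floor_le he2 J
  have hu0 : (0 : ℝ) < 2 ^ J := by positivity
  have hm0 : (0 : ℝ) ≤ m := Nat.cast_nonneg m
  have hNp : (0 : ℝ) < 2 ^ (N * J) := Real.rpow_pos_of_pos (by norm_num) _
  have hNJ : (2 : ℝ) ^ (N * J) ≤ 2 ^ J := by
    rw [← Real.rpow_natCast 2 J]
    refine Real.rpow_le_rpow_of_exponent_le (by norm_num) ?_
    have := mul_le_mul_of_nonneg_right hN hJ0
    linarith
  have b1 : (1 : ℝ) ≤ 2 ^ (e * J) := by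
    rw [← exp_p2]
    exact Real.one_le_exp (by positivity)
  have a2 : (2 : ℝ) ^ ⌊e * J⌋₊ ≤ 2 ^ (e * J) := p2_le (by positivity)
  have key := CH_le_int hcl.nonneg hcl.sum_one u'
    (fun ω => (u ω, (z' (slam F ⌊w * J⌋₊ ω), y J F ω))) (fun _ => 2 ^ (e * J) * (m + 4)) (by
    intro ω ω' hω hω' hh
    simp only [Prod.mk.injEq] at hh
    have hωA := of_cond_pos hω
    have hωA' := of_cond_pos hω'
    have hx : ∀ l : Fin (i + 1), F.X J ω (c l) = F.X J ω' (c l) := by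
      intro l
      have h1 := hu ω hωA
      have h2 := hu ω' hωA'
      have h3 := congrFun (h1.symm.trans (hh.1.trans h2)) l
      exact h3
    have hTT : F.T ω = F.T ω' := by rw [hφ ω, hφ ω', hh.2.2]
    have h1 := lb_near hlb hfl hωA (ω' := ω') (by
      intro k hk
      obtain ⟨l, hl, rfl⟩ := Finset.mem_image.1 hk
      exact X_near (hx ⟨l, by have := Finset.mem_range.1 hl; omega⟩)) hh.2.1 hTT
    have h2 := X_near (hx (Fin.last i))
    rw [hu' ω hωA, hu' ω' hωA']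
    refine (abs_floor_sub _ _).trans ?_
    rw [ojet_zero, ojet_zero, ← mul_sub, abs_mul, abs_of_pos hNp]
    have h3 : |F.x ω (c i) - eval (bt F ω) (G (z' (slam F ⌊w * J⌋₊ ω))) -
        (F.x ω' (c i) - eval (bt F ω') (G (z' (slam F ⌊w * J⌋₊ ω'))))| ≤
        1 / 2 ^ J + 2 ^ ⌊e * J⌋₊ * ((m + 1) * (1 / 2 ^ J)) := by
      have e1 : F.x ω (c i) - eval (bt F ω) (G (z' (slam F ⌊w * J⌋₊ ω))) -
          (F.x ω' (c i) - eval (bt F ω') (G (z' (slam F ⌊w * J⌋₊ ω')))) =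
          (eval (bt F ω') (G (z' (slam F ⌊w * J⌋₊ ω'))) -
            eval (bt F ω) (G (z' (slam F ⌊w * J⌋₊ ω)))) -
          (F.x ω' (c i) - F.x ω (c i)) := by ring
      rw [e1]
      refine (abs_sub _ _).trans ?_
      have h2' : |F.x ω' (c i) - F.x ω (c i)| ≤ 1 / 2 ^ J := h2
      linarith
    have h4 : (2 : ℝ) ^ (N * J) * |F.x ω (c i) - eval (bt F ω) (G (z' (slam F ⌊w * J⌋₊ ω))) -
        (F.x ω' (c i) - eval (bt F ω') (G (z' (slam F ⌊w * J⌋₊ ω'))))| ≤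
        1 + 2 ^ (e * J) * (m + 1) := by
      refine (mul_le_mul hNJ h3 (abs_nonneg _) hu0.le).trans ?_
      have e2 : (2 : ℝ) ^ J * (1 / 2 ^ J + 2 ^ ⌊e * J⌋₊ * ((m + 1) * (1 / 2 ^ J))) =
          1 + 2 ^ ⌊e * J⌋₊ * (m + 1) := by
        field_simp
      rw [e2]
      have := mul_le_mul_of_nonneg_right a2 (show (0 : ℝ) ≤ m + 1 by positivity)
      linarith
    nlinarith)
  rw [Ex_const hcl.sum_one] at key
  refine key.trans ((hJ₀ J hJ _ e he.le (by positivity) le_rfl).trans ?_)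
  refine mul_le_mul_of_nonneg_right ?_ hJ0
  nlinarith

/-- **The position given the lower positions and `N` digits of the height** over a label with
bounded gradients. -/
theorem few_pos
    (hpos : ∀ (τ : ℝ) (J : ℕ) (F : Fam m J) (A : F.Ω → Prop), S.St τ J F A → 0 < Pe F.p A)
    (hf : ∀ (J : ℕ) (F : Fam m J), ∃ φ : α J F → PtT F, ∀ ω, ptr F J ω = φ (f J F ω))
    (hT : ∀ (J : ℕ) (F : Fam m J), ∃ φ : γ J F → ℕ, ∀ ω, F.T ω = φ (y J F ω)) {c : ℕ → Fin m}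
    {i : ℕ} {w p rd N : ℝ} (hw : w ≤ 1) (hrd : rd < 1) (hN : N ≤ 1) :
    FewC S f (vg w) y ((qPos m c i).prod (qLp m ((range i).image c) (c i) w p rd N))
      (qX m (c i)) ((1 - N) * Real.log 2) := by
  intro h hh
  obtain ⟨J₀, hJ₀⟩ := log_room (m := m) (half_pos hh)
  obtain ⟨e, hee⟩ : ∃ e : ℝ, e = min (h / 2) (1 - rd) := ⟨_, rfl⟩
  have he : 0 < e := by rw [hee]; exact lt_min (half_pos hh) (by linarith)
  have he1 : e ≤ h / 2 := by rw [hee]; exact min_le_left _ _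
  have he2 : rd + e ≤ 1 := by
    have : e ≤ 1 - rd := by rw [hee]; exact min_le_right _ _
    linarith
  have hl2 : 0 < Real.log 2 := Real.log_pos one_lt_two
  have hl21 : Real.log 2 ≤ 1 := by
    have := Real.log_two_lt_d9
    linarith
  refine ⟨e, he, fun K => Bas.mono J₀ (pos_bas hpos) ?_⟩
  rintro J hJ F A hA u u' ⟨hu1, hc, V, z, z', G, hlb, hu2⟩ hu'
  have hcl := isLaw_cond F.isLaw hA
  have hJ0 : (0 : ℝ) ≤ J := Nat.cast_nonneg J
  refine ⟨V, fun ω => z' (slam F ⌊w * J⌋₊ ω), lb_cl2 le_rfl hw (LbP.of hlb) (hf J F), ?_⟩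
  obtain ⟨φ, hφ⟩ := hT J F
  have hfl : ⌊(rd + e) * J⌋₊ ≤ J := floor_le he2 J
  have hu0 : (0 : ℝ) < 2 ^ J := by positivity
  have hm0 : (0 : ℝ) ≤ m := Nat.cast_nonneg m
  have hNp : (0 : ℝ) < 2 ^ (N * J) := Real.rpow_pos_of_pos (by norm_num) _
  have hNq : (0 : ℝ) < 2 ^ ((1 - N) * J) := Real.rpow_pos_of_pos (by norm_num) _
  have hNJ : (2 : ℝ) ^ J = 2 ^ ((1 - N) * J) * 2 ^ (N * J) := by
    rw [← Real.rpow_natCast 2 J, ← Real.rpow_add (by norm_num)]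
    congr 1
    ring
  have b1 : (1 : ℝ) ≤ 2 ^ (e * J) := by
    rw [← exp_p2]
    exact Real.one_le_exp (by positivity)
  have b2 : (1 : ℝ) ≤ 2 ^ ((1 - N) * J) := by
    rw [← exp_p2]
    exact Real.one_le_exp (mul_nonneg (mul_nonneg (by linarith) hJ0) hl2.le)
  have a2 : (2 : ℝ) ^ ⌊e * J⌋₊ ≤ 2 ^ (e * J) := p2_le (by positivity)
  have e0 : (2 : ℝ) ^ ((1 - N + e) * J) = 2 ^ ((1 - N) * J) * 2 ^ (e * J) := by
    rw [← Real.rpow_add (by norm_num)]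
    congr 1
    ring
  have key := CH_le_int hcl.nonneg hcl.sum_one u'
    (fun ω => (u ω, (z' (slam F ⌊w * J⌋₊ ω), y J F ω)))
    (fun _ => 2 ^ ((1 - N + e) * J) * (m + 4)) (by
    intro ω ω' hω hω' hh
    simp only [Prod.mk.injEq] at hh
    have hωA := of_cond_pos hω
    have hωA' := of_cond_pos hω'
    have hx : ∀ l : Fin i, F.X J ω (c l) = F.X J ω' (c l) := by
      intro l
      have h1 := hu1 ω hωA
      have h2 := hu1 ω' hωA'
      have h0 : (u ω).1 = (u ω').1 := by rw [hh.1]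
      exact congrFun (h1.symm.trans (h0.trans h2)) l
    have hTT : F.T ω = F.T ω' := by rw [hφ ω, hφ ω', hh.2.2]
    have h1 := lb_near hlb hfl hωA (ω' := ω') (by
      intro k hk
      obtain ⟨l, hl, rfl⟩ := Finset.mem_image.1 hk
      exact X_near (hx ⟨l, Finset.mem_range.1 hl⟩)) hh.2.1 hTT
    have h0 : (u ω).2 = (u ω').2 := by rw [hh.1]
    have h2 : ⌊(2 : ℝ) ^ (N * J) * ojet F (c i) 0 (G (z' (slam F ⌊w * J⌋₊ ω))) ω⌋ =
        ⌊(2 : ℝ) ^ (N * J) * ojet F (c i) 0 (G (z' (slam F ⌊w * J⌋₊ ω'))) ω'⌋ := by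
      rw [← hu2 ω hωA, ← hu2 ω' hωA']
      exact h0
    have h3 := Int.abs_sub_lt_one_of_floor_eq_floor h2
    rw [ojet_zero, ojet_zero, ← mul_sub, abs_mul, abs_of_pos hNp] at h3
    rw [hu' ω hωA, hu' ω' hωA']
    change |((⌊(2 : ℝ) ^ J * F.x ω (c i)⌋ - ⌊(2 : ℝ) ^ J * F.x ω' (c i)⌋ : ℤ) : ℝ)| ≤ _
    refine (abs_floor_sub _ _).trans ?_
    rw [← mul_sub, abs_mul, abs_of_pos hu0]
    obtain ⟨a, ha⟩ : ∃ a : ℝ, a = F.x ω (c i) - eval (bt F ω) (G (z' (slam F ⌊w * J⌋₊ ω))) -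
        (F.x ω' (c i) - eval (bt F ω') (G (z' (slam F ⌊w * J⌋₊ ω')))) := ⟨_, rfl⟩
    obtain ⟨b, hb⟩ : ∃ b : ℝ, b = eval (bt F ω') (G (z' (slam F ⌊w * J⌋₊ ω'))) -
        eval (bt F ω) (G (z' (slam F ⌊w * J⌋₊ ω))) := ⟨_, rfl⟩
    rw [← ha] at h3
    rw [← hb] at h1
    have h4 : F.x ω (c i) - F.x ω' (c i) = a - b := by
      rw [ha, hb]
      ring
    rw [h4, e0]
    have h5 : (2 : ℝ) ^ J * |a| ≤ 2 ^ ((1 - N) * J) := by
      rw [hNJ, mul_assoc]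
      exact (mul_le_mul_of_nonneg_left h3.le hNq.le).trans (le_of_eq (mul_one _))
    have h6 : (2 : ℝ) ^ J * |b| ≤ 2 ^ (e * J) * (m + 1) := by
      refine (mul_le_mul_of_nonneg_left h1 hu0.le).trans ?_
      have e2 : (2 : ℝ) ^ J * (2 ^ ⌊e * J⌋₊ * ((m + 1) * (1 / 2 ^ J))) =
          2 ^ ⌊e * J⌋₊ * (m + 1) := by
        field_simp
      rw [e2]
      exact mul_le_mul_of_nonneg_right a2 (show (0 : ℝ) ≤ m + 1 by positivity)
    have h7 : (2 : ℝ) ^ J * |a - b| ≤ 2 ^ J * |a| + 2 ^ J * |b| := by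
      rw [← mul_add]
      exact mul_le_mul_of_nonneg_left (abs_sub _ _) hu0.le
    have h8 : (2 : ℝ) ^ ((1 - N) * J) ≤ 2 ^ ((1 - N) * J) * 2 ^ (e * J) :=
      le_mul_of_one_le_right hNq.le b1
    have h9 : (2 : ℝ) ^ (e * J) ≤ 2 ^ ((1 - N) * J) * 2 ^ (e * J) :=
      le_mul_of_one_le_left (by linarith) b2
    have h10 := mul_le_mul_of_nonneg_right h9 (show (0 : ℝ) ≤ m + 1 by positivity)
    nlinarith)
  rw [Ex_const hcl.sum_one] at key
  refine key.trans ((hJ₀ J hJ _ (1 - N + e) (by linarith) (by positivity) le_rfl).trans ?_)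
  refine mul_le_mul_of_nonneg_right ?_ hJ0
  nlinarith

end Pool.LA91
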