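import Pool.Agent.H44.V0F.S5

/-!
# The codes of the base coordinates from the jets of orders zero and one

`jet_ac`: near coefficients from near jets of the orders `0`, `1` and from equal codes of order `≥ 2`.
`ac_stmt`: `AcStmt`.
-/

set_option autoImplicit false

namespace Pool.V0F

open Finset Real MvPolynomial
open Pool.Agent.H49.Ent Pool.Agent.H32.Dense Pool.STK Pool.KA Pool.KSAT Pool.K2S Pool.PB Pool.GEN
open Pool.S6C Pool.RCD Pool.LA91 Pool.OWN68 Pool.AVG96 Pool.AVG5 Pool.AVG71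
open Pool.AVG57 (adM jet2 upw adM_th adM_dA adM_T jt_adM floor_div_self)
open Pool.PB.Trl (rt rt_mem t_rt)

variable {m J : ℕ}

/-- Near coefficients from near jets of the orders `0`, `1` and near coefficients of order `≥ 2`. -/
theorem co_jet2 {K : ℕ} {P Q : Polynomial ℝ} (hP : P.natDegree ≤ K) (hQ : Q.natDegree ≤ K)
    {θ δ δ₀ : ℝ} (hθ : |θ| ≤ 1) (hδ : 0 ≤ δ) (h2 : ∀ i, 2 ≤ i → i ≤ K → |P.coeff i - Q.coeff i| ≤ δ)
    (h1 : |jt P θ 1 - jt Q θ 1| ≤ δ) (h0 : |jt P θ 0 - jt Q θ 0| ≤ δ₀) (hδ₀ : δ ≤ δ₀) :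
    (∀ a, 1 ≤ a → |P.coeff a - Q.coeff a| ≤ 2 ^ (2 * K + 2) * δ) ∧
      |P.coeff 0 - Q.coeff 0| ≤ 2 ^ (2 * K + 2) * δ₀ := by
  have hK : (1 : ℝ) ≤ 2 ^ (K + 1) := one_le_pow₀ (by norm_num)
  have hd0 : 0 ≤ δ₀ := hδ.trans hδ₀
  have key : ∀ i, 1 ≤ i → |jt P θ i - jt Q θ i| ≤ 2 ^ (K + 1) * δ := by
    intro i hi
    rcases Nat.lt_or_ge i 2 with h | h
    · have : i = 1 := by omega
      rw [this]
      refine h1.trans ?_
      nlinarith
    · exact jt_dif hP hQ hθ hδ fun i' hi' hK' => h2 i' (h.trans hi') hK'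
  have e : (2 : ℝ) ^ (2 * K + 2) = 2 ^ (K + 1) * 2 ^ (K + 1) := by
    rw [← pow_add]
    congr 1
    omega
  constructor
  · intro a ha
    have h3 := co_sub hP hQ hθ (θ := θ) (δ := 2 ^ (K + 1) * δ) (by positivity) (a := a)
      fun i hi _ => key i (ha.trans hi)
    rw [e, mul_assoc]
    exact h3
  · have h3 := co_sub hP hQ hθ (θ := θ) (δ := 2 ^ (K + 1) * δ₀) (by positivity) (a := 0)
      fun i _ _ => by
        rcases Nat.eq_zero_or_pos i with h | h
        · rw [h]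
          refine h0.trans ?_
          nlinarith
        · exact (key i h).trans (mul_le_mul_of_nonneg_left hδ₀ (by positivity))
    rw [e, mul_assoc]
    exact h3

section

variable {F : Fam m J} {c : ℕ → Fin m} {r n q w W X mm : ℕ} {γ : ℕ → ℕ}
  {G : ℕ → PtT F → ℕ → MvPolynomial (Option (Fin m)) ℝ}
  {H : LnT F → ℕ → MvPolynomial (Option (Fin m)) ℝ} {ζ : Type} {zw : F.Ω → ζ}

/-- The codes of order `≥ 2` are the codes of `adM`. -/
theorem ac_cod {K : ℕ} (ω : F.Ω) (j : Fin r) (a : Fin (K + 1)) (ha : 2 ≤ (a : ℕ)) :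
    (adM F c 0 r n q w W X mm γ G H zw).ac K ω j a =
      cod F W 2 K (2 ^ (γ j + q + (X + mm))) (c j) (fun s => upw w W s) (fun s => H s j) ω a := by
  have e0 : (0 : ℕ) + (j : ℕ) = j := Nat.zero_add _
  unfold cod
  rw [if_pos ha]
  show ⌊(2 : ℝ) ^ (X + mm) * (Polynomial.C (2 ^ (γ (0 + j) + q)) *
    dv W (fun s (_ : Fin m) => H (upw w W s) (0 + j)) (c (0 + j)) (slam F W ω)).coeff a⌋ = _
  rw [e0, Polynomial.coeff_C_mul, ← mul_assoc, ← pow_add, add_comm (X + mm)]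

/-- **Near coefficients** of the base coordinates. -/
theorem jet_ac {K D : ℕ} (hwW : w ≤ W) (hW : W ≤ J) (hH : ∀ s l, (H s l).totalDegree ≤ D)
    (hK : D + 1 ≤ K) {N : ℕ → ℕ → ℝ} {E₀ : ℕ} (hE : E₀ ≤ X + mm) {ω ν : F.Ω}
    (ht : rt F W ω = rt F W ν) {j : Fin r} (h0 : ((γ j + q + E₀ : ℕ) : ℝ) ≤ N j 0 * J)
    (h1 : ((γ j + q + (X + mm) : ℕ) : ℝ) ≤ N j 1 * J + W)
    (hj : ∀ j' ≤ 1, jet2 F c w H 0 r N ω j j' = jet2 F c w H 0 r N ν j j')
    (hc : cod F W 2 K (2 ^ (γ j + q + (X + mm))) (c j) (fun s => upw w W s) (fun s => H s j) ω =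
      cod F W 2 K (2 ^ (γ j + q + (X + mm))) (c j) (fun s => upw w W s) (fun s => H s j) ν) :
    (∀ a, 1 ≤ a → |((adM F c 0 r n q w W X mm γ G H zw).A ω j).coeff a -
      ((adM F c 0 r n q w W X mm γ G H zw).A ν j).coeff a| ≤
        2 ^ (2 * K + 2) * (1 / 2 ^ (X + mm))) ∧
    |((adM F c 0 r n q w W X mm γ G H zw).A ω j).coeff 0 -
      ((adM F c 0 r n q w W X mm γ G H zw).A ν j).coeff 0| ≤ 2 ^ (2 * K + 2) * (1 / 2 ^ E₀) := by
  have e0 : (0 : ℕ) + (j : ℕ) = j := Nat.zero_add _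
  have p2 : (0 : ℝ) < 2 ^ (γ j + q) := by positivity
  have pW : (0 : ℝ) < 2 ^ W := by positivity
  have hth := adM_th (c := c) (k₀ := 0) (k := r) (n := n) (q := q) (w := w) (X := X) (mm := mm)
    (γ := γ) (G := G) (H := H) (zw := zw) hW ω
  have hT : (adM F c 0 r n q w W X mm γ G H zw).th ω =
    (adM F c 0 r n q w W X mm γ G H zw).th ν := ht
  have j1 := fun (o : F.Ω) (a : ℕ) => jt_adM (c := c) (k₀ := 0) (n := n) (q := q)
    (X := X) (mm := mm) (γ := γ) (G := G) (H := H) (zw := zw) hwW hW o (some j) a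
  have j2 : ∀ o : F.Ω, ∀ a : ℕ, jt ((adM F c 0 r n q w W X mm γ G H zw).A o j)
      ((adM F c 0 r n q w W X mm γ G H zw).th o) a =
      2 ^ (γ j + q) * (ojet F (c j) a (H (slam F w o) j) o / ((a.factorial : ℝ) * (2 ^ W) ^ a)) := by
    intro o a
    have h3 := j1 o a
    simp only [Option.elim, e0] at h3
    exact h3
  have f0 : |ojet F (c j) 0 (H (slam F w ω) j) ω - ojet F (c j) 0 (H (slam F w ν) j) ν| ≤
      1 / 2 ^ (N j 0 * J) := by
    have h3 := hj 0 (Nat.zero_le _)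
    unfold jet2 at h3
    rw [if_pos ⟨Nat.zero_le _, j.2, Nat.zero_le _⟩, if_pos ⟨Nat.zero_le _, j.2, Nat.zero_le _⟩] at h3
    exact Pool.AVG57.near_of_floor (Real.rpow_pos_of_pos two_pos _) h3
  have f1 : |ojet F (c j) 1 (H (slam F w ω) j) ω - ojet F (c j) 1 (H (slam F w ν) j) ν| ≤
      1 / 2 ^ (N j 1 * J) := by
    have h3 := hj 1 le_rfl
    unfold jet2 at h3
    rw [if_pos ⟨Nat.zero_le _, j.2, le_rfl⟩, if_pos ⟨Nat.zero_le _, j.2, le_rfl⟩] at h3
    exact Pool.AVG57.near_of_floor (Real.rpow_pos_of_pos two_pos _) h3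
  have g0 : 2 ^ (γ j + q) * (1 / (2 : ℝ) ^ (N j 0 * J)) ≤ 1 / 2 ^ E₀ := by
    calc _ ≤ 2 ^ (γ j + q) * (1 / (2 : ℝ) ^ ((γ j + q + E₀ : ℕ) : ℝ)) := by
          refine mul_le_mul_of_nonneg_left (one_div_le_one_div_of_le (by positivity) ?_) p2.le
          exact Real.rpow_le_rpow_of_exponent_le one_le_two h0
      _ = 1 / 2 ^ E₀ := by
          rw [Real.rpow_natCast, pow_add _ (γ j + q)]
          field_simp
  have g1 : 2 ^ (γ j + q) * (1 / (2 : ℝ) ^ (N j 1 * J) / 2 ^ W) ≤ 1 / 2 ^ (X + mm) := by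
    calc _ = 2 ^ (γ j + q) * (1 / (2 : ℝ) ^ (N j 1 * J + W)) := by
          rw [Real.rpow_add two_pos, Real.rpow_natCast, div_div]
      _ ≤ 2 ^ (γ j + q) * (1 / (2 : ℝ) ^ ((γ j + q + (X + mm) : ℕ) : ℝ)) := by
          refine mul_le_mul_of_nonneg_left (one_div_le_one_div_of_le (by positivity) ?_) p2.le
          exact Real.rpow_le_rpow_of_exponent_le one_le_two h1
      _ = 1 / 2 ^ (X + mm) := by
          rw [Real.rpow_natCast, pow_add _ (γ j + q)]
          field_simp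
  refine co_jet2 (θ := (adM F c 0 r n q w W X mm γ G H zw).th ω) (adM_dA hH hK ω j)
    (adM_dA hH hK ν j) ?_ (by positivity) ?_ ?_ ?_ ?_
  · rw [abs_of_nonneg hth.1]
    exact hth.2.le
  · intro i hi hiK
    have h3 := congrFun hc ⟨i, by omega⟩
    rw [← ac_cod (n := n) (G := G) (zw := zw) ω j ⟨i, by omega⟩ hi,
      ← ac_cod (n := n) (G := G) (zw := zw) ν j ⟨i, by omega⟩ hi] at h3
    unfold AD.ac at h3
    exact of_fl (by positivity) h3
  · conv_lhs => rw [hT]
    rw [← hT, j2 ω 1]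
    rw [hT, j2 ν 1, Nat.factorial_one, Nat.cast_one, one_mul, pow_one, ← mul_sub, ← sub_div,
      abs_mul, abs_of_pos p2, abs_div, abs_of_pos pW]
    exact (mul_le_mul_of_nonneg_left (div_le_div_of_nonneg_right f1 pW.le) p2.le).trans g1
  · rw [j2 ω 0]
    rw [hT, j2 ν 0, Nat.factorial_zero, Nat.cast_one, one_mul, pow_zero, div_one, div_one,
      ← mul_sub, abs_mul, abs_of_pos p2]
    exact (mul_le_mul_of_nonneg_left f0 p2.le).trans g0
  · exact one_div_le_one_div_of_le (by positivity) (pow_le_pow_right₀ (by norm_num) hE)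

/-- The codes given equal conditions. -/
theorem ac_ch {p : F.Ω → ℝ} (hp : IsLaw p) {K : ℕ} (hW : W ≤ J) {e : ℝ}
    (he : ∀ l < r, CH p (cod F W 2 K (2 ^ (γ l + q + (X + mm))) (c l) (fun s => upw w W s)
      (fun s => H s l)) F.W ≤ e) {T : Type} (x : F.Ω → T) (Y : F.Ω → Fin r × Fin (K + 1) → ℤ)
    {B : ℝ} (hB : 0 ≤ B)
    (h : ∀ ω ν, 0 < p ω → 0 < p ν → x ω = x ν → rt F W ω = rt F W ν → (∀ j : Fin r,
      cod F W 2 K (2 ^ (γ j + q + (X + mm))) (c j) (fun s => upw w W s) (fun s => H s j) ω =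
      cod F W 2 K (2 ^ (γ j + q + (X + mm))) (c j) (fun s => upw w W s) (fun s => H s j) ν) →
      ∀ i, |(Y ω i : ℝ) - Y ν i| ≤ B) :
    CH p Y (fun ω => (x ω, ((adM F c 0 r n q w W X mm γ G H zw).th ω,
      (adM F c 0 r n q w W X mm γ G H zw).z ω))) ≤ r * e + r * (K + 1) * Real.log (2 * B + 1) := by
  have h0 := hp.nonneg
  obtain ⟨Z, hZ⟩ : ∃ Z : F.Ω → T × (ℝ × (ζ × ((F.ζ × ℕ) × (Fin 0 → ℝ × ℝ)))), Z = fun ω =>
    (x ω, ((adM F c 0 r n q w W X mm γ G H zw).th ω,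
      (adM F c 0 r n q w W X mm γ G H zw).z ω)) := ⟨_, rfl⟩
  obtain ⟨cd, hcd⟩ : ∃ cd : F.Ω → Fin r → Fin (K + 1) → ℤ, cd = fun ω (j : Fin r) =>
    cod F W 2 K (2 ^ (γ j + q + (X + mm))) (c j) (fun s => upw w W s) (fun s => H s j) ω :=
    ⟨_, rfl⟩
  rw [← hZ]
  have h1 : CH p cd Z ≤ r * e := by
    refine (CH_fam h0 cd Z).trans ?_
    have h2 : ∀ j ∈ (Finset.univ : Finset (Fin r)), CH p (fun ω => cd ω j) Z ≤ e := by
      intro j _
      refine le_trans ?_ (he j j.2)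
      have h3 : (fun ω => cd ω j) = cod F W 2 K (2 ^ (γ j + q + (X + mm))) (c j)
          (fun s => upw w W s) (fun s => H s j) := by
        funext ω
        rw [hcd]
      rw [h3]
      refine CH_mono_cond h0 fun ω ν _ _ hh => ?_
      rw [hZ] at hh
      obtain ⟨-, h4⟩ := Prod.ext_iff.mp hh
      obtain ⟨h5, h6⟩ := Prod.ext_iff.mp h4
      have h7 := (Prod.ext_iff.mp (Prod.ext_iff.mp h6).2).1
      exact adM_T hW h5 h7
    refine (Finset.sum_le_sum h2).trans (le_of_eq ?_)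
    rw [Finset.sum_const, Finset.card_univ, Fintype.card_fin, nsmul_eq_mul]
  have h2 : CH p Y (fun ω => (cd ω, Z ω)) ≤ r * (K + 1) * Real.log (2 * B + 1) := by
    refine (CH_near hp Y (fun ω => (cd ω, Z ω)) hB fun ω ν hω hν hh i => ?_).trans (le_of_eq ?_)
    · obtain ⟨h3, h4⟩ := Prod.ext_iff.mp hh
      have h3' : cd ω = cd ν := h3
      have h4' : Z ω = Z ν := h4
      rw [hZ] at h4'
      obtain ⟨h5, h6⟩ := Prod.ext_iff.mp h4'
      refine h ω ν hω hν h5 (Prod.ext_iff.mp h6).1 (fun j => ?_) i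
      have h7 := congrFun h3' j
      rw [hcd] at h7
      exact h7
    · rw [Fintype.card_prod, Fintype.card_fin, Fintype.card_fin]
      push_cast
      ring
  have h3 := CH_le_add h0 Y cd Z
  linarith

end

/-- **(AC)** The codes of the base coordinates from the jets of the orders `0`, `1` and from the
codes of order `≥ 2`. -/
theorem ac_stmt : AcStmt := by
  intro r K
  have hB : (0 : ℝ) ≤ 2 ^ (2 * K + 2) + 1 := by positivity
  have hl : 0 ≤ Real.log (2 * ((2 : ℝ) ^ (2 * K + 2) + 1) + 1) := Real.log_nonneg (by linarith)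
  refine ⟨r * (K + 1) * Real.log (2 * ((2 : ℝ) ^ (2 * K + 2) + 1) + 1), by positivity, ?_⟩
  intro m J F c n q w W X mm D γ G H ζ zw p e hp hwW hW hH hK he hcod
  have h0 := hp.nonneg
  constructor
  · intro N hN0 hN1
    have key := ac_ch (c := c) (γ := γ) (q := q) (X := X) (mm := mm) (w := w) (H := H) (n := n)
      (G := G) (zw := zw) hp hW hcod (jet2 F c w H 0 r N)
      (fun ω i => (adM F c 0 r n q w W X mm γ G H zw).ac K ω i.1 i.2) hB
      (fun ω ν hω hν hx ht hc i => by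
        obtain ⟨g1, g0⟩ := jet_ac (n := n) (G := G) (zw := zw) (E₀ := X + mm) hwW hW hH hK le_rfl
          ht (j := i.1) (hN0 _ i.1.2) (hN1 _ i.1.2)
          (fun j' _ => congrFun (congrFun hx i.1) j') (hc i.1)
        have g2 : |((adM F c 0 r n q w W X mm γ G H zw).A ω i.1).coeff (i.2 : ℕ) -
            ((adM F c 0 r n q w W X mm γ G H zw).A ν i.1).coeff (i.2 : ℕ)| ≤
              2 ^ (2 * K + 2) * (1 / 2 ^ (X + mm)) := by
          rcases Nat.eq_zero_or_pos (i.2 : ℕ) with h | h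
          · rw [h]
            exact g0
          · exact g1 _ h
        have g3 := fl_mul (σ := (2 : ℝ) ^ (X + mm)) (by positivity) g2
        refine g3.trans (le_of_eq ?_)
        field_simp)
    refine le_trans (CH_mono_left h0 fun ω ν _ _ hh => ?_) key
    have h1 := (Prod.ext_iff.mp hh).1
    funext j a
    exact congrFun h1 (j, a)
  · intro N hN0 hN1
    have key := ac_ch (c := c) (γ := γ) (q := q) (X := X) (mm := mm) (w := w) (H := H) (n := n)
      (G := G) (zw := zw) hp hW hcod (jet2 F c w H 0 r N)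
      (fun ω i => if (i.2 : ℕ) = 0 then
          (adM F c 0 r n q w W X mm γ G H zw).ac K ω i.1 0 / 2 ^ (X + mm)
        else (adM F c 0 r n q w W X mm γ G H zw).ac K ω i.1 i.2) hB
      (fun ω ν hω hν hx ht hc i => by
        obtain ⟨g1, g0⟩ := jet_ac (n := n) (G := G) (zw := zw) (E₀ := 0) hwW hW hH hK
          (Nat.zero_le _) ht (j := i.1) (by simpa using hN0 _ i.1.2) (hN1 _ i.1.2)
          (fun j' _ => congrFun (congrFun hx i.1) j') (hc i.1)
        try dsimp only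
        split_ifs with hi
        · have e1 : ∀ o : F.Ω, (adM F c 0 r n q w W X mm γ G H zw).ac K o i.1 0 / 2 ^ (X + mm) =
              ⌊((adM F c 0 r n q w W X mm γ G H zw).A o i.1).coeff 0⌋ := fun o =>
            floor_div_self _ (X + mm)
          rw [e1, e1]
          have g3 := fl_abs (((adM F c 0 r n q w W X mm γ G H zw).A ω i.1).coeff 0)
            (((adM F c 0 r n q w W X mm γ G H zw).A ν i.1).coeff 0)
          rw [pow_zero, div_one, mul_one] at g0
          linarith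
        · have g2 := g1 (i.2 : ℕ) (Nat.pos_of_ne_zero hi)
          have g3 := fl_mul (σ := (2 : ℝ) ^ (X + mm)) (by positivity) g2
          refine g3.trans (le_of_eq ?_)
          field_simp)
    refine le_trans (CH_mono_left h0 fun ω ν _ _ hh => ?_) key
    have h1 := (Prod.ext_iff.mp hh).1
    refine Prod.ext ?_ ?_
    · funext j a
      have h2 := congrFun h1 (j, a.succ)
      have h3 : (adM F c 0 r n q w W X mm γ G H zw).ac K ω j a.succ =
        (adM F c 0 r n q w W X mm γ G H zw).ac K ν j a.succ := by simpa using h2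
      exact h3
    · funext j
      have h2 := congrFun h1 (j, 0)
      have h3 : (adM F c 0 r n q w W X mm γ G H zw).ac K ω j 0 / 2 ^ (X + mm) =
        (adM F c 0 r n q w W X mm γ G H zw).ac K ν j 0 / 2 ^ (X + mm) := by simpa using h2
      exact h3

end Pool.V0F
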